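import Pool.Agent.P8H73.SF.Local

/-!
Roots of polynomial equations with holomorphic coefficients near a boundary point of a disc.
-/

set_option autoImplicit false

open Complex Metric Set Filter Topology
open Pool.Agent.P8H73.SF (HH HH_analytic fin_pos roots_fin)

namespace Pool.Agent.P8H66.CS

/-- division by the common factor -/
theorem factor (N : ℕ) (h : ℕ → ℂ → ℂ) (ζ : ℂ) (hh : ∀ k ≤ N, AnalyticAt ℂ (h k) ζ)
    (hN : ¬ ∀ᶠ z in 𝓝 ζ, h N z = 0) :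
    ∃ (e : ℕ) (g : ℕ → ℂ → ℂ), (∀ i ≤ N, AnalyticAt ℂ (g i) ζ) ∧
      (∀ᶠ z in 𝓝 ζ, ∀ i ∈ Finset.range (N + 1), h i z = (z - ζ) ^ e * g i z) ∧
      (¬ ∀ᶠ z in 𝓝 ζ, g N z = 0) ∧ ∃ Z, HH N g ζ Z ≠ 0 := by
  obtain ⟨i0, hi0, hmin⟩ := Finset.exists_min_image (Finset.range (N + 1))
    (fun i => analyticOrderAt (h i) ζ) ⟨0, Finset.mem_range.2 (Nat.succ_pos N)⟩
  have hfin : analyticOrderAt (h i0) ζ ≠ ⊤ := by
    intro htop
    have h1 := hmin N (Finset.mem_range.2 (Nat.lt_succ_self N))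
    rw [htop, top_le_iff, analyticOrderAt_eq_top] at h1
    exact hN h1
  obtain ⟨e, he⟩ := ENat.ne_top_iff_exists.1 hfin
  have hex : ∀ i, i ≤ N → ∃ g : ℂ → ℂ, AnalyticAt ℂ g ζ ∧
      (∀ᶠ z in 𝓝 ζ, h i z = (z - ζ) ^ e • g z) ∧ (i = i0 → g ζ ≠ 0) := by
    intro i hi
    by_cases h0 : i = i0
    · obtain ⟨g, h1, h2, h3⟩ := (hh i hi).analyticOrderAt_eq_natCast.1
        (by rw [h0]; exact he.symm : analyticOrderAt (h i) ζ = e)
      exact ⟨g, h1, h3, fun _ => h2⟩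
    · have h1 := hmin i (Finset.mem_range.2 (Nat.lt_succ_of_le hi))
      rw [← he] at h1
      obtain ⟨g, h2, h3⟩ := (natCast_le_analyticOrderAt (hh i hi)).1 h1
      exact ⟨g, h2, h3, fun h' => absurd h' h0⟩
  choose! g hg1 hg2 hg3 using hex
  refine ⟨e, g, hg1, ?_, ?_, ?_⟩
  · rw [Filter.eventually_all_finset]
    intro i hi
    filter_upwards [hg2 i (Nat.lt_succ_iff.1 (Finset.mem_range.1 hi))] with z hz
    rw [hz, smul_eq_mul]
  · intro h0
    apply hN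
    filter_upwards [h0, hg2 N le_rfl] with z hz1 hz2
    rw [hz2, hz1, smul_zero]
  · by_contra hcon
    push Not at hcon
    have hi0' : i0 ≤ N := Nat.lt_succ_iff.1 (Finset.mem_range.1 hi0)
    apply hg3 i0 hi0' rfl
    have hp : (∑ i ∈ Finset.range (N + 1), Polynomial.C (g i ζ) * Polynomial.X ^ i) =
        (0 : Polynomial ℂ) := by
      refine Polynomial.funext fun Z => ?_
      rw [Polynomial.eval_zero, ← hcon Z]
      unfold HH
      simp [Polynomial.eval_finsetSum]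
    have h1 := congrArg (fun p : Polynomial ℂ => p.coeff i0) hp
    simp only [Polynomial.finsetSum_coeff, Polynomial.coeff_C_mul, Polynomial.coeff_X_pow,
      mul_ite, mul_one, mul_zero, Polynomial.coeff_zero] at h1
    rw [Finset.sum_ite_eq (Finset.range (N + 1)) i0, if_pos hi0] at h1
    exact h1

/-- lower bound at an isolated zero -/
theorem low_pow (h : ℂ → ℂ) (ζ : ℂ) (hh : AnalyticAt ℂ h ζ) (h0 : ¬ ∀ᶠ z in 𝓝 ζ, h z = 0) :
    ∃ (m : ℕ) (κ : ℝ), 0 < κ ∧ ∀ᶠ z in 𝓝 ζ, κ * ‖z - ζ‖ ^ m ≤ ‖h z‖ := by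
  have hfin : analyticOrderAt h ζ ≠ ⊤ := by
    rw [Ne, analyticOrderAt_eq_top]
    exact h0
  obtain ⟨m, hm⟩ := ENat.ne_top_iff_exists.1 hfin
  obtain ⟨g, h1, h2, h3⟩ := hh.analyticOrderAt_eq_natCast.1 hm.symm
  have hp : 0 < ‖g ζ‖ := norm_pos_iff.2 h2
  refine ⟨m, ‖g ζ‖ / 2, by linarith, ?_⟩
  have h4 : ∀ᶠ z in 𝓝 ζ, ‖g ζ‖ / 2 < ‖g z‖ :=
    h1.continuousAt.norm.eventually (lt_mem_nhds (by linarith))
  filter_upwards [h3, h4] with z hz1 hz2
  rw [hz1, norm_smul, norm_pow, mul_comm]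
  exact mul_le_mul_of_nonneg_left hz2.le (by positivity)

/-- the coefficients are bounded -/
theorem coef_bdd (N : ℕ) (h : ℕ → ℂ → ℂ) (ζ : ℂ) (hh : ∀ k ≤ N, AnalyticAt ℂ (h k) ζ) :
    ∃ S : ℝ, 0 < S ∧ ∀ᶠ z in 𝓝 ζ, ∀ i ∈ Finset.range (N + 1), ‖h i z‖ ≤ S := by
  refine ⟨1 + ∑ i ∈ Finset.range (N + 1), ‖h i ζ‖, ?_, ?_⟩
  · have : 0 ≤ ∑ i ∈ Finset.range (N + 1), ‖h i ζ‖ := Finset.sum_nonneg fun _ _ => norm_nonneg _
    linarith
  · rw [Filter.eventually_all_finset]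
    intro i hi
    have h1 : ‖h i ζ‖ < 1 + ∑ i ∈ Finset.range (N + 1), ‖h i ζ‖ := by
      have := Finset.single_le_sum (f := fun i => ‖h i ζ‖) (fun _ _ => norm_nonneg _) hi
      linarith
    filter_upwards [(hh i (Nat.lt_succ_iff.1 (Finset.mem_range.1 hi))).continuousAt.norm.eventually
      (gt_mem_nhds h1)] with z hz
    exact hz.le

/-- lower bound for roots near zero -/
theorem root_low (c : ℂ) (ρ : ℝ) (w1 : ℂ) (hw1 : w1 ∈ sphere c ρ) (y : ℂ → ℂ)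
    (hy : DifferentiableOn ℂ y (ball c ρ))
    (hy0 : ∀ δ : ℝ, 0 < δ → ∃ w ∈ ball c ρ ∩ ball w1 δ, y w ≠ 0) (M : ℝ)
    (hM : ∀ᶠ w in 𝓝 w1, w ∈ ball c ρ → ‖y w‖ ≤ M) (N : ℕ) :
    ∀ h : ℕ → ℂ → ℂ, (∀ k ≤ N, AnalyticAt ℂ (h k) w1) → (¬ ∀ᶠ z in 𝓝 w1, h N z = 0) →
      (∀ᶠ w in 𝓝 w1, w ∈ ball c ρ → HH N h w (y w) = 0) →
      ∃ (m : ℕ) (κ : ℝ), 0 < κ ∧ ∀ᶠ w in 𝓝 w1, w ∈ ball c ρ → κ * ‖w - w1‖ ^ m ≤ ‖y w‖ := by
  induction N with
  | zero =>
    intro h hh hN hrel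
    exfalso
    obtain ⟨m, κ, hκ, hlow⟩ := low_pow (h 0) w1 (hh 0 le_rfl) hN
    obtain ⟨δ, hδ, hδb⟩ := Metric.eventually_nhds_iff_ball.1 (hlow.and hrel)
    obtain ⟨w, hw, -⟩ := hy0 δ hδ
    obtain ⟨h1, h2⟩ := hδb w hw.2
    have h3 := h2 hw.1
    unfold HH at h3
    rw [Finset.sum_range_one, pow_zero, mul_one] at h3
    rw [h3, norm_zero] at h1
    have h4 : w ≠ w1 := by
      rintro rfl
      have h5 : ‖w - c‖ = ρ := mem_sphere_iff_norm.1 hw1
      have h6 : ‖w - c‖ < ρ := mem_ball_iff_norm.1 hw.1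
      linarith
    have h5 : 0 < ‖w - w1‖ := norm_pos_iff.2 (sub_ne_zero.2 h4)
    have h6 : 0 < κ * ‖w - w1‖ ^ m := by positivity
    linarith
  | succ N ih =>
    intro h hh hN hrel
    have hsplit : ∀ w : ℂ, HH (N + 1) h w (y w) = h 0 w + y w * HH N (fun k => h (k + 1)) w (y w) := by
      intro w
      unfold HH
      rw [Finset.sum_range_succ', pow_zero, mul_one, Finset.mul_sum, add_comm]
      congr 1
      refine Finset.sum_congr rfl fun k _ => ?_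
      rw [pow_succ]
      ring
    obtain ⟨S, hS, hSb⟩ := coef_bdd (N + 1) h w1 hh
    by_cases h0 : ∀ᶠ z in 𝓝 w1, h 0 z = 0
    · -- division
      refine ih (fun k => h (k + 1)) (fun k hk => hh (k + 1) (by omega)) hN ?_
      have han : ∀ᶠ w in 𝓝 w1, ∀ i ∈ Finset.range (N + 1), AnalyticAt ℂ (h (i + 1)) w := by
        rw [Filter.eventually_all_finset]
        intro i hi
        have := Finset.mem_range.1 hi
        exact (hh (i + 1) (by omega)).eventually_analyticAt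
      obtain ⟨δ, hδ, hδb⟩ := Metric.eventually_nhds_iff_ball.1 (han.and (h0.and hrel))
      have hop : IsOpen (ball c ρ ∩ ball w1 δ) := isOpen_ball.inter isOpen_ball
      have hpre : IsPreconnected (ball c ρ ∩ ball w1 δ) :=
        ((convex_ball c ρ).inter (convex_ball w1 δ)).isPreconnected
      have hya : AnalyticOnNhd ℂ y (ball c ρ ∩ ball w1 δ) :=
        (hy.mono inter_subset_left).analyticOnNhd hop
      have hTa : AnalyticOnNhd ℂ (fun w => HH N (fun k => h (k + 1)) w (y w))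
          (ball c ρ ∩ ball w1 δ) := by
        intro w hw
        unfold HH
        refine Finset.analyticAt_fun_sum _ fun i hi => ?_
        exact ((hδb w hw.2).1 i hi).mul ((hya w hw).pow i)
      have hprod : ∀ w ∈ ball c ρ ∩ ball w1 δ,
          y w * HH N (fun k => h (k + 1)) w (y w) = 0 := by
        intro w hw
        obtain ⟨-, h1, h2⟩ := hδb w hw.2
        have h3 := h2 hw.1
        rw [hsplit, h1, zero_add] at h3
        exact h3
      have hT0 : ∀ w ∈ ball c ρ ∩ ball w1 δ, HH N (fun k => h (k + 1)) w (y w) = 0 := by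
        intro w hw
        by_contra hne
        have h1 : ∀ᶠ v in 𝓝 w, HH N (fun k => h (k + 1)) v (y v) ≠ 0 :=
          (hTa w hw).continuousAt.eventually_ne hne
        have h2 : y =ᶠ[𝓝 w] 0 := by
          filter_upwards [h1, hop.mem_nhds hw] with v hv1 hv2
          rcases mul_eq_zero.1 (hprod v hv2) with h3 | h3
          · exact h3
          · exact absurd h3 hv1
        have h3 := hya.eqOn_zero_of_preconnected_of_eventuallyEq_zero hpre hw h2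
        obtain ⟨v, hv, hv0⟩ := hy0 δ hδ
        exact hv0 (h3 hv)
      filter_upwards [ball_mem_nhds w1 hδ] with w hw hwb
      exact hT0 w ⟨hwb, hw⟩
    · obtain ⟨m, κ, hκ, hlow⟩ := low_pow (h 0) w1 (hh 0 (by omega)) h0
      obtain ⟨Q, hQ⟩ : ∃ Q : ℝ, Q = ∑ i ∈ Finset.range (N + 1), S * (|M| + 1) ^ i := ⟨_, rfl⟩
      have hQ0 : 0 < Q := by
        rw [hQ]
        exact Finset.sum_pos (fun i _ => by positivity) ⟨0, Finset.mem_range.2 (Nat.succ_pos N)⟩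
      refine ⟨m, κ / Q, by positivity, ?_⟩
      filter_upwards [hlow, hrel, hM, hSb] with w h1 h2 h3 h4 hwb
      have h5 := h2 hwb
      rw [hsplit] at h5
      have h6 : ‖HH N (fun k => h (k + 1)) w (y w)‖ ≤ Q := by
        unfold HH
        rw [hQ]
        refine norm_sum_le_of_le _ fun i hi => ?_
        rw [norm_mul, norm_pow]
        have hi' := Finset.mem_range.1 hi
        refine mul_le_mul (h4 (i + 1) (Finset.mem_range.2 (by omega))) ?_ (by positivity) hS.le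
        refine pow_le_pow_left₀ (norm_nonneg _) ?_ i
        have := h3 hwb
        linarith [le_abs_self M]
      have h7 : h 0 w = -(y w * HH N (fun k => h (k + 1)) w (y w)) := by
        linear_combination h5
      rw [h7, norm_neg, norm_mul] at h1
      rw [div_mul_eq_mul_div, div_le_iff₀ hQ0]
      exact h1.trans (mul_le_mul_of_nonneg_left h6 (norm_nonneg _))

/-- the roots stay in one of the discs -/
theorem locate (c : ℂ) (ρ : ℝ) (w1 : ℂ) (y : ℂ → ℂ)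
    (hy : ContinuousOn y (ball c ρ)) (N : ℕ) (h : ℕ → ℂ → ℂ) (hh : ∀ k ≤ N, AnalyticAt ℂ (h k) w1)
    (hrel : ∀ᶠ w in 𝓝 w1, w ∈ ball c ρ → HH N h w (y w) = 0) (s : Finset ℂ)
    (hs : ∀ Z, HH N h w1 Z = 0 → Z ∈ s) (ε K : ℝ) (hε : 0 < ε)
    (hsep : ∀ a ∈ s, ∀ b ∈ s, a ≠ b → 3 * ε ≤ ‖a - b‖) (hK : ∀ a ∈ s, ‖a‖ + ε ≤ K) :
    ∃ δ : ℝ, 0 < δ ∧ ((∀ w ∈ ball c ρ ∩ ball w1 δ, K < ‖y w‖) ∨
      ∃ a ∈ s, ∀ w ∈ ball c ρ ∩ ball w1 δ, ‖y w - a‖ < ε) := by
  have hcl : ∀ᶠ w in 𝓝 w1, ∀ Z ∈ {Z : ℂ | ‖Z‖ ≤ K ∧ ∀ Z' ∈ s, ε ≤ ‖Z - Z'‖}, HH N h w Z ≠ 0 := by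
    have hcomp : IsCompact {Z : ℂ | ‖Z‖ ≤ K ∧ ∀ Z' ∈ s, ε ≤ ‖Z - Z'‖} := by
      refine (isCompact_closedBall (0 : ℂ) K).of_isClosed_subset ?_ fun Z hZ => by
        simpa using hZ.1
      refine IsClosed.inter (isClosed_le continuous_norm continuous_const) ?_
      have : {Z : ℂ | ∀ Z' ∈ s, ε ≤ ‖Z - Z'‖} = ⋂ Z' ∈ s, {Z : ℂ | ε ≤ ‖Z - Z'‖} := by
        ext Z
        simp
      have h2 : IsClosed {Z : ℂ | ∀ Z' ∈ s, ε ≤ ‖Z - Z'‖} := by
        rw [this]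
        exact isClosed_biInter fun Z' _ => isClosed_le continuous_const (by fun_prop)
      exact h2
    refine hcomp.eventually_forall_of_forall_eventually (P := fun w Z => HH N h w Z ≠ 0) ?_
    intro Z hZ
    have h1 : HH N h w1 Z ≠ 0 := by
      intro h0
      have h2 := hZ.2 Z (hs Z h0)
      rw [sub_self, norm_zero] at h2
      linarith
    exact (HH_analytic N h w1 Z hh).continuousAt.eventually_ne h1
  obtain ⟨δ, hδ, hδb⟩ := Metric.eventually_nhds_iff_ball.1 (hcl.and hrel)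
  have halt : ∀ w ∈ ball c ρ ∩ ball w1 δ, K < ‖y w‖ ∨ ∃ a ∈ s, ‖y w - a‖ < ε := by
    intro w hw
    obtain ⟨h1, h2⟩ := hδb w hw.2
    by_contra hcon
    push Not at hcon
    exact h1 (y w) ⟨hcon.1, hcon.2⟩ (h2 hw.1)
  have hop : IsOpen (ball c ρ ∩ ball w1 δ) := isOpen_ball.inter isOpen_ball
  have hpre : IsPreconnected (ball c ρ ∩ ball w1 δ) :=
    ((convex_ball c ρ).inter (convex_ball w1 δ)).isPreconnected
  have hyD : ContinuousOn y (ball c ρ ∩ ball w1 δ) := hy.mono inter_subset_left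
  have key : ∀ a ∈ s, ∀ w0 ∈ ball c ρ ∩ ball w1 δ, ‖y w0 - a‖ < ε →
      ∀ w ∈ ball c ρ ∩ ball w1 δ, ‖y w - a‖ < ε := by
    intro a ha w0 hw0 hw0a
    have hc1 : ContinuousOn (fun w => ‖y w - a‖) (ball c ρ ∩ ball w1 δ) :=
      (hyD.sub continuousOn_const).norm
    have hUo : IsOpen ((ball c ρ ∩ ball w1 δ) ∩ {w | ‖y w - a‖ < ε}) :=
      hc1.isOpen_inter_preimage hop isOpen_Iio
    have hVo : IsOpen ((ball c ρ ∩ ball w1 δ) ∩ {w | ε < ‖y w - a‖}) :=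
      hc1.isOpen_inter_preimage hop isOpen_Ioi
    have hcover : ball c ρ ∩ ball w1 δ ⊆
        ((ball c ρ ∩ ball w1 δ) ∩ {w | ‖y w - a‖ < ε}) ∪
        ((ball c ρ ∩ ball w1 δ) ∩ {w | ε < ‖y w - a‖}) := by
      intro w hw
      rcases halt w hw with h1 | ⟨b, hb, h1⟩
      · right
        refine ⟨hw, ?_⟩
        show ε < ‖y w - a‖
        have h2 := norm_sub_norm_le (y w) a
        have h3 := hK a ha
        linarith
      · rcases eq_or_ne b a with h2 | h2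
        · left
          rw [h2] at h1
          exact ⟨hw, h1⟩
        · right
          refine ⟨hw, ?_⟩
          show ε < ‖y w - a‖
          have h3 := hsep b hb a ha h2
          have h4 : ‖b - a‖ ≤ ‖y w - b‖ + ‖y w - a‖ := by
            have := norm_add_le (b - y w) (y w - a)
            rw [sub_add_sub_cancel, norm_sub_rev b (y w)] at this
            exact this
          linarith
    have hdisj : Disjoint ((ball c ρ ∩ ball w1 δ) ∩ {w | ‖y w - a‖ < ε})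
        ((ball c ρ ∩ ball w1 δ) ∩ {w | ε < ‖y w - a‖}) := by
      rw [Set.disjoint_left]
      rintro w ⟨-, h1⟩ ⟨-, h2⟩
      exact lt_asymm (show ‖y w - a‖ < ε from h1) h2
    have hall := IsPreconnected.subset_left_of_subset_union hUo hVo hdisj hcover
      ⟨w0, hw0, hw0, hw0a⟩ hpre
    exact fun w hw => (hall hw).2
  refine ⟨δ, hδ, ?_⟩
  by_cases hout : ∀ w ∈ ball c ρ ∩ ball w1 δ, K < ‖y w‖
  · exact Or.inl hout
  · right
    push Not at hout
    obtain ⟨w0, hw0, hw0K⟩ := hout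
    rcases halt w0 hw0 with h1 | ⟨a, ha, h1⟩
    · exact absurd h1 (not_lt.2 hw0K)
    · exact ⟨a, ha, key a ha w0 hw0 h1⟩

/-- upper bound for roots near infinity -/
theorem root_up (c : ℂ) (ρ : ℝ) (w1 : ℂ) (y : ℂ → ℂ) (N : ℕ) (h : ℕ → ℂ → ℂ)
    (hh : ∀ k ≤ N, AnalyticAt ℂ (h k) w1) (hN : ¬ ∀ᶠ z in 𝓝 w1, h N z = 0)
    (hrel : ∀ᶠ w in 𝓝 w1, w ∈ ball c ρ → HH N h w (y w) = 0) :
    ∃ (m : ℕ) (S : ℝ), 0 < S ∧ ∀ᶠ w in 𝓝 w1, w ∈ ball c ρ → 1 ≤ ‖y w‖ →
      ‖y w‖ * ‖w - w1‖ ^ m ≤ S := by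
  obtain ⟨m, κ, hκ, hlow⟩ := low_pow (h N) w1 (hh N le_rfl) hN
  obtain ⟨S, hS, hSb⟩ := coef_bdd N h w1 hh
  refine ⟨m, ((N : ℝ) + 1) * S / κ, by positivity, ?_⟩
  filter_upwards [hlow, hrel, hSb] with w h1 h2 h3 hwb h4
  have h5 := h2 hwb
  unfold HH at h5
  rw [Finset.sum_range_succ] at h5
  have h6 : h N w * y w ^ N = -∑ i ∈ Finset.range N, h i w * y w ^ i := by
    linear_combination h5
  have h7 : ‖h N w‖ * ‖y w‖ ^ N * ‖y w‖ ≤ (N + 1) * S * ‖y w‖ ^ N := by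
    rw [← norm_pow, ← norm_mul, h6, norm_neg, norm_pow]
    have h8 : ‖∑ i ∈ Finset.range N, h i w * y w ^ i‖ * ‖y w‖ ≤ (N : ℝ) * S * ‖y w‖ ^ N := by
      have h9 : ‖∑ i ∈ Finset.range N, h i w * y w ^ i‖ ≤ ∑ i ∈ Finset.range N, S * ‖y w‖ ^ i := by
        refine norm_sum_le_of_le _ fun i hi => ?_
        rw [norm_mul, norm_pow]
        have := Finset.mem_range.1 hi
        exact mul_le_mul_of_nonneg_right (h3 i (Finset.mem_range.2 (by omega))) (by positivity)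
      refine (mul_le_mul_of_nonneg_right h9 (norm_nonneg _)).trans ?_
      rw [Finset.sum_mul]
      have h10 : ∀ i ∈ Finset.range N, S * ‖y w‖ ^ i * ‖y w‖ ≤ S * ‖y w‖ ^ N := by
        intro i hi
        have := Finset.mem_range.1 hi
        rw [mul_assoc, ← pow_succ]
        exact mul_le_mul_of_nonneg_left (pow_le_pow_right₀ h4 (by omega)) hS.le
      refine (Finset.sum_le_sum h10).trans (le_of_eq ?_)
      rw [Finset.sum_const, Finset.card_range, nsmul_eq_mul]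
      ring
    have : 0 ≤ S * ‖y w‖ ^ N := by positivity
    nlinarith
  have h8 : 0 < ‖y w‖ ^ N := by positivity
  have h9 : ‖h N w‖ * ‖y w‖ ≤ (N + 1) * S := by
    have e : ‖h N w‖ * ‖y w‖ ^ N * ‖y w‖ = ‖h N w‖ * ‖y w‖ * ‖y w‖ ^ N := by ring
    rw [e] at h7
    exact le_of_mul_le_mul_right h7 h8
  rw [le_div_iff₀ hκ]
  have h10 := mul_le_mul_of_nonneg_right h1 (norm_nonneg (y w))
  nlinarith

/-- the shifted equation -/
theorem shift (N : ℕ) (h : ℕ → ℂ → ℂ) (a : ℂ) :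
    ∃ g : ℕ → ℂ → ℂ, g N = h N ∧
      (∀ ζ, (∀ k ≤ N, AnalyticAt ℂ (h k) ζ) → ∀ k ≤ N, AnalyticAt ℂ (g k) ζ) ∧
      ∀ w Y : ℂ, HH N g w Y = HH N h w (Y + a) := by
  refine ⟨fun j w => ∑ i ∈ Finset.range (N + 1), h i w * (a ^ (i - j) * (i.choose j : ℂ)), ?_,
    ?_, ?_⟩
  · funext w
    show ∑ i ∈ Finset.range (N + 1), h i w * (a ^ (i - N) * (i.choose N : ℂ)) = h N w
    rw [Finset.sum_range_succ, Nat.sub_self, pow_zero, Nat.choose_self, Nat.cast_one, mul_one,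
      mul_one, Finset.sum_eq_zero, zero_add]
    intro i hi
    rw [Nat.choose_eq_zero_of_lt (Finset.mem_range.1 hi), Nat.cast_zero, mul_zero, mul_zero]
  · intro ζ hh k _
    refine Finset.analyticAt_fun_sum _ fun i hi => ?_
    exact (hh i (Nat.lt_succ_iff.1 (Finset.mem_range.1 hi))).mul analyticAt_const
  · intro w Y
    unfold HH
    have h1 : ∀ i ∈ Finset.range (N + 1), h i w * (Y + a) ^ i =
        ∑ j ∈ Finset.range (N + 1), h i w * (a ^ (i - j) * (i.choose j : ℂ)) * Y ^ j := by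
      intro i hi
      have hi' := Finset.mem_range.1 hi
      rw [add_pow, Finset.mul_sum]
      rw [← Finset.sum_subset (Finset.range_mono (show i + 1 ≤ N + 1 by omega))]
      · refine Finset.sum_congr rfl fun j _ => ?_
        ring
      · intro j _ hj
        rw [Finset.mem_range, not_lt] at hj
        rw [Nat.choose_eq_zero_of_lt (by omega), Nat.cast_zero, mul_zero, mul_zero, zero_mul]
    rw [Finset.sum_congr rfl h1, Finset.sum_comm]
    refine Finset.sum_congr rfl fun j _ => ?_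
    rw [Finset.sum_mul]

end Pool.Agent.P8H66.CS
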