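import Mathlib

/-!
Functions of polynomial growth are meromorphic at infinity.
-/

set_option autoImplicit false

open Complex Metric Set Filter Topology

namespace Pool.Agent.P8H66.CS

theorem mero_of_growth (A B : ℂ → ℂ) (hA : Differentiable ℂ A) (hB : Differentiable ℂ B)
    (h : ∃ (K C : ℝ) (m : ℕ), ∀ z : ℂ, K < ‖z‖ → B z ≠ 0 ∧ ‖A z / B z‖ ≤ C * ‖z‖ ^ m) :
    MeromorphicAt (fun u : ℂ => A u⁻¹ / B u⁻¹) 0 := by
  obtain ⟨K, C, m, hK⟩ := h
  refine ⟨m + 1, ?_⟩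
  have hpos : 0 < 1 / (|K| + 1) := by positivity
  have hbig : ∀ u : ℂ, u ≠ 0 → ‖u‖ < 1 / (|K| + 1) → K < ‖u⁻¹‖ := by
    intro u hu hu1
    rw [norm_inv]
    have h1 : 0 < ‖u‖ := norm_pos_iff.2 hu
    rw [lt_div_iff₀ (by positivity)] at hu1
    have h2 : |K| + 1 < ‖u‖⁻¹ := by
      rw [← one_div, lt_div_iff₀ h1]
      linarith
    linarith [le_abs_self K]
  refine analyticAt_of_differentiable_on_punctured_nhds_of_continuousAt ?_ ?_
  · rw [eventually_nhdsWithin_iff]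
    filter_upwards [ball_mem_nhds (0 : ℂ) hpos] with u hu hu0
    have hu0' : u ≠ 0 := hu0
    obtain ⟨h1, -⟩ := hK _ (hbig u hu0' (mem_ball_zero_iff.1 hu))
    have h2 : DifferentiableAt ℂ (fun u : ℂ => u⁻¹) u := differentiableAt_inv hu0'
    have h3 : DifferentiableAt ℂ (fun u : ℂ => A u⁻¹) u :=
      DifferentiableAt.comp (g := A) (f := fun u : ℂ => u⁻¹) u (hA _) h2
    have h4 : DifferentiableAt ℂ (fun u : ℂ => B u⁻¹) u :=
      DifferentiableAt.comp (g := B) (f := fun u : ℂ => u⁻¹) u (hB _) h2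
    exact (((differentiableAt_id).sub_const 0).pow (m + 1)).smul (h3.div h4 h1)
  · have h0 : ((0 : ℂ) - 0) ^ (m + 1) • (A 0⁻¹ / B 0⁻¹) = 0 := by
      simp
    show Tendsto (fun z : ℂ => (z - 0) ^ (m + 1) • (A z⁻¹ / B z⁻¹)) (𝓝 0)
      (𝓝 (((0 : ℂ) - 0) ^ (m + 1) • (A 0⁻¹ / B 0⁻¹)))
    rw [h0, tendsto_zero_iff_norm_tendsto_zero]
    have h1 : Tendsto (fun u : ℂ => |C| * ‖u‖) (𝓝 0) (𝓝 0) := by
      have : Continuous (fun u : ℂ => |C| * ‖u‖) := by fun_prop
      have h2 := this.tendsto 0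
      simpa using h2
    refine squeeze_zero' (Filter.Eventually.of_forall fun u => norm_nonneg _) ?_ h1
    filter_upwards [ball_mem_nhds (0 : ℂ) hpos] with u hu
    rcases eq_or_ne u 0 with hu0 | hu0
    · rw [hu0]
      simp
    · obtain ⟨-, h2⟩ := hK _ (hbig u hu0 (mem_ball_zero_iff.1 hu))
      have h3 : 0 < ‖u‖ := norm_pos_iff.2 hu0
      rw [norm_smul, sub_zero, norm_pow]
      calc ‖u‖ ^ (m + 1) * ‖A u⁻¹ / B u⁻¹‖ ≤ ‖u‖ ^ (m + 1) * (C * ‖u⁻¹‖ ^ m) :=
            mul_le_mul_of_nonneg_left h2 (by positivity)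
        _ = C * ‖u‖ := by
            rw [norm_inv, inv_pow, pow_succ]
            field_simp
        _ ≤ |C| * ‖u‖ := mul_le_mul_of_nonneg_right (le_abs_self C) h3.le

/-- a transcendental function is not constant -/
theorem not_const (A B : ℂ → ℂ) (hA : Differentiable ℂ A) (hB : Differentiable ℂ B)
    (hAB : ∀ z, A z ≠ 0 ∨ B z ≠ 0) (hTr : ¬ MeromorphicAt (fun u : ℂ => A u⁻¹ / B u⁻¹) 0)
    (a : ℂ) (φ : ℂ → ℂ) (r : ℝ) (hr : 0 < r) (hφ : DifferentiableOn ℂ φ (ball 0 r))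
    (hinj : InjOn φ (ball 0 r)) (h : ∀ v ∈ ball (0 : ℂ) r, A (φ v) - a * B (φ v) = 0) : False := by
  have h1 : Differentiable ℂ (fun z => A z - a * B z) := hA.sub (hB.const_mul a)
  have h0 : (0 : ℂ) ∈ ball (0 : ℂ) r := mem_ball_self hr
  have h2 : Tendsto φ (𝓝[≠] 0) (𝓝[≠] (φ 0)) := by
    rw [tendsto_nhdsWithin_iff]
    constructor
    · exact (hφ.continuousOn.continuousAt (isOpen_ball.mem_nhds h0)).tendsto.mono_left
        nhdsWithin_le_nhds
    · rw [eventually_nhdsWithin_iff]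
      filter_upwards [isOpen_ball.mem_nhds h0] with v hv hv0
      intro he
      exact hv0 (hinj hv h0 he)
  have h3 : ∃ᶠ z in 𝓝[≠] (φ 0), A z - a * B z = 0 := by
    refine h2.frequently ?_
    apply Filter.Eventually.frequently
    rw [eventually_nhdsWithin_iff]
    filter_upwards [isOpen_ball.mem_nhds h0] with v hv _
    exact h v hv
  have h4 : ∀ z : ℂ, A z - a * B z = 0 := by
    intro z
    exact (h1.differentiableOn.analyticOnNhd
      isOpen_univ).eqOn_zero_of_preconnected_of_frequently_eq_zero isPreconnected_univ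
      (mem_univ (φ 0)) h3 (mem_univ z)
  apply hTr
  apply mero_of_growth A B hA hB
  refine ⟨0, ‖a‖, 0, fun z _ => ?_⟩
  have h5 := h4 z
  have h6 : B z ≠ 0 := by
    intro h7
    rw [h7, mul_zero, sub_zero] at h5
    rcases hAB z with h8 | h8
    · exact h8 h5
    · exact h8 h7
  refine ⟨h6, ?_⟩
  have h7 : A z / B z = a := by
    rw [div_eq_iff h6]
    linear_combination h5
  rw [h7, pow_zero, mul_one]

end Pool.Agent.P8H66.CS
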