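import Pool.Agent.P8H66.CS.Alg
import Pool.Agent.P8H66.CS.Mero

/-!
The conjugate of a transcendental function is not algebroid on a circle.
-/

set_option autoImplicit false

open Complex Metric Set Filter Topology ComplexConjugate
open Pool.Agent.P8H73.SF (HH)

namespace Pool.Agent.P8H66.CS

theorem root_up_pt (N : ℕ) (h : ℕ → ℂ → ℂ) (w y : ℂ) (S : ℝ) (hS : 0 < S)
    (h3 : ∀ i ∈ Finset.range (N + 1), ‖h i w‖ ≤ S) (h5 : HH N h w y = 0) (h4 : 1 ≤ ‖y‖) :
    ‖h N w‖ * ‖y‖ ≤ (N + 1) * S := by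
  unfold HH at h5
  rw [Finset.sum_range_succ] at h5
  have h6 : h N w * y ^ N = -∑ i ∈ Finset.range N, h i w * y ^ i := by
    linear_combination h5
  have h7 : ‖h N w‖ * ‖y‖ ^ N * ‖y‖ ≤ (N + 1) * S * ‖y‖ ^ N := by
    rw [← norm_pow, ← norm_mul, h6, norm_neg, norm_pow]
    have h8 : ‖∑ i ∈ Finset.range N, h i w * y ^ i‖ * ‖y‖ ≤ (N : ℝ) * S * ‖y‖ ^ N := by
      have h9 : ‖∑ i ∈ Finset.range N, h i w * y ^ i‖ ≤ ∑ i ∈ Finset.range N, S * ‖y‖ ^ i := by
        refine norm_sum_le_of_le _ fun i hi => ?_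
        rw [norm_mul, norm_pow]
        have := Finset.mem_range.1 hi
        exact mul_le_mul_of_nonneg_right (h3 i (Finset.mem_range.2 (by omega))) (by positivity)
      refine (mul_le_mul_of_nonneg_right h9 (norm_nonneg _)).trans ?_
      rw [Finset.sum_mul]
      have h10 : ∀ i ∈ Finset.range N, S * ‖y‖ ^ i * ‖y‖ ≤ S * ‖y‖ ^ N := by
        intro i hi
        have := Finset.mem_range.1 hi
        rw [mul_assoc, ← pow_succ]
        exact mul_le_mul_of_nonneg_left (pow_le_pow_right₀ h4 (by omega)) hS.le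
      refine (Finset.sum_le_sum h10).trans (le_of_eq ?_)
      rw [Finset.sum_const, Finset.card_range, nsmul_eq_mul]
      ring
    have : 0 ≤ S * ‖y‖ ^ N := by positivity
    nlinarith
  have h8 : 0 < ‖y‖ ^ N := by positivity
  have e : ‖h N w‖ * ‖y‖ ^ N * ‖y‖ = ‖h N w‖ * ‖y‖ * ‖y‖ ^ N := by ring
  rw [e] at h7
  exact le_of_mul_le_mul_right h7 h8

theorem no_disc (A B : ℂ → ℂ) (hA : Differentiable ℂ A) (hB : Differentiable ℂ B)
    (hAB : ∀ z, A z ≠ 0 ∨ B z ≠ 0) (hTr : ¬ MeromorphicAt (fun u : ℂ => A u⁻¹ / B u⁻¹) 0)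
    (p : ℂ) (r0 : ℝ) (hr0 : 0 < r0) (V : Set ℂ) (hV : IsOpen V) (hcl : closedBall p r0 ⊆ V)
    (N : ℕ) (a : ℕ → ℂ → ℂ) (ha : ∀ k ≤ N, DifferentiableOn ℂ (a k) V)
    (hne : ∃ z ∈ ball p r0, a N z ≠ 0)
    (hrel : ∀ z ∈ sphere p r0,
      ∑ k ∈ Finset.range (N + 1), a k z * conj (A z) ^ k * conj (B z) ^ (N - k) = 0) : False := by
  have hr0c : (r0 : ℂ) ≠ 0 := by exact_mod_cast hr0.ne'
  obtain ⟨As, hAs⟩ : ∃ As : ℂ → ℂ, As = conj ∘ A ∘ conj := ⟨_, rfl⟩
  obtain ⟨Bs, hBs⟩ : ∃ Bs : ℂ → ℂ, Bs = conj ∘ B ∘ conj := ⟨_, rfl⟩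
  have hAsd : Differentiable ℂ As := fun v => by
    rw [hAs, differentiableAt_conj_conj_iff]
    exact hA _
  have hBsd : Differentiable ℂ Bs := fun v => by
    rw [hBs, differentiableAt_conj_conj_iff]
    exact hB _
  obtain ⟨f, hf⟩ : ∃ f : ℂ → ℂ, f = fun s => ∑ k ∈ Finset.range (N + 1),
      a k (p + r0 * exp (-s)) * As (conj p + r0 * exp s) ^ k *
        Bs (conj p + r0 * exp s) ^ (N - k) := ⟨_, rfl⟩
  have hin : ∀ s : ℂ, 0 ≤ s.re → p + r0 * exp (-s) ∈ closedBall p r0 := by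
    intro s hs
    rw [mem_closedBall_iff_norm, add_sub_cancel_left, norm_mul, Complex.norm_real,
      Real.norm_of_nonneg hr0.le, Complex.norm_exp, neg_re]
    have : Real.exp (-s.re) ≤ 1 := Real.exp_le_one_iff.2 (by linarith)
    nlinarith
  have hfa : AnalyticOnNhd ℂ f {s : ℂ | 0 ≤ s.re} := by
    intro s hs
    rw [hf]
    refine Finset.analyticAt_fun_sum _ fun k hk => ?_
    have hk' : k ≤ N := Nat.lt_succ_iff.1 (Finset.mem_range.1 hk)
    have h1 : AnalyticAt ℂ (fun s : ℂ => a k (p + r0 * exp (-s))) s := by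
      refine AnalyticAt.comp (g := a k) (f := fun s : ℂ => p + r0 * exp (-s)) ?_
        (Differentiable.analyticAt (by fun_prop) s)
      exact (ha k hk').analyticAt (hV.mem_nhds (hcl (hin s hs)))
    have h2 : AnalyticAt ℂ (fun s : ℂ => As (conj p + r0 * exp s)) s :=
      Differentiable.analyticAt (hAsd.comp (by fun_prop)) s
    have h3 : AnalyticAt ℂ (fun s : ℂ => Bs (conj p + r0 * exp s)) s :=
      Differentiable.analyticAt (hBsd.comp (by fun_prop)) s
    exact (h1.mul (h2.pow k)).mul (h3.pow (N - k))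
  have hf0 : ∀ y : ℝ, f (y * I) = 0 := by
    intro y
    have h1 : p + r0 * exp (-(y * I)) ∈ sphere p r0 := by
      rw [mem_sphere_iff_norm, add_sub_cancel_left, norm_mul, Complex.norm_real,
        Real.norm_of_nonneg hr0.le, Complex.norm_exp]
      simp
    have h2 : conj (conj p + (r0 : ℂ) * exp (y * I)) = p + r0 * exp (-(y * I)) := by
      rw [map_add, Complex.conj_conj, map_mul, conj_ofReal, ← Complex.exp_conj, map_mul, conj_I,
        conj_ofReal, mul_neg]
    rw [hf, ← hrel _ h1]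
    refine Finset.sum_congr rfl fun k _ => ?_
    rw [hAs, hBs]
    simp only [Function.comp_apply, h2]
  have hfz : ∀ s : ℂ, 0 ≤ s.re → f s = 0 := by
    have h1 : ∃ᶠ s in 𝓝[≠] (0 : ℂ), f s = 0 := by
      have h2 : Tendsto (fun y : ℝ => (y : ℂ) * I) (𝓝[≠] 0) (𝓝[≠] 0) := by
        rw [tendsto_nhdsWithin_iff]
        constructor
        · have h3 : Continuous (fun y : ℝ => (y : ℂ) * I) := by fun_prop
          have h4 := h3.tendsto 0
          simp only [ofReal_zero, zero_mul] at h4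
          exact h4.mono_left nhdsWithin_le_nhds
        · filter_upwards [self_mem_nhdsWithin] with y hy
          have : (y : ℂ) ≠ 0 := by exact_mod_cast hy
          exact mul_ne_zero this I_ne_zero
      refine h2.frequently ?_
      apply Filter.Eventually.frequently
      exact Filter.Eventually.of_forall fun y => hf0 y
    have h5 := hfa.eqOn_zero_of_preconnected_of_frequently_eq_zero
      (convex_halfSpace_re_ge 0).isPreconnected (z₀ := 0) (by simp) h1
    exact fun s hs => h5 hs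
  -- the coefficients at infinity
  obtain ⟨c, hc⟩ : ∃ c : ℕ → ℂ → ℂ, c = fun k => conj ∘ (fun u : ℂ => a k (p + r0 ^ 2 * u)) ∘ conj :=
    ⟨_, rfl⟩
  have hpV : p ∈ V := hcl (mem_closedBall_self hr0.le)
  have hcan : ∀ k ≤ N, AnalyticAt ℂ (c k) 0 := by
    intro k hk
    rw [Complex.analyticAt_iff_eventually_differentiableAt]
    have h1 : Tendsto (fun u : ℂ => p + (r0 : ℂ) ^ 2 * conj u) (𝓝 0) (𝓝 p) := by
      have h2 : Continuous (fun u : ℂ => p + (r0 : ℂ) ^ 2 * conj u) := by fun_prop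
      have h3 := h2.tendsto 0
      simpa using h3
    filter_upwards [h1.eventually (hV.mem_nhds hpV)] with u hu
    rw [hc]
    simp only
    rw [differentiableAt_conj_conj_iff]
    refine DifferentiableAt.comp (g := a k) (f := fun u : ℂ => p + (r0 : ℂ) ^ 2 * u) _ ?_
      (by fun_prop)
    exact (ha k hk).differentiableAt (hV.mem_nhds hu)
  have hcN : ¬ ∀ᶠ u in 𝓝 (0 : ℂ), c N u = 0 := by
    intro hev
    have h1 : Tendsto (fun z : ℂ => conj ((z - p) / (r0 : ℂ) ^ 2)) (𝓝 p) (𝓝 0) := by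
      have h2 : Continuous (fun z : ℂ => conj ((z - p) / (r0 : ℂ) ^ 2)) := by fun_prop
      have h3 := h2.tendsto p
      simpa using h3
    have h2 : ∀ᶠ z in 𝓝 p, a N z = 0 := by
      filter_upwards [h1.eventually hev] with z hz
      rw [hc] at hz
      simp only [Function.comp_apply, Complex.conj_conj] at hz
      rw [mul_div_cancel₀ _ (pow_ne_zero 2 hr0c), add_sub_cancel] at hz
      exact (map_eq_zero _).1 hz
    have h3 : EqOn (a N) 0 (ball p r0) :=
      (((ha N le_rfl).mono (ball_subset_closedBall.trans hcl)).analyticOnNhd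
        isOpen_ball).eqOn_zero_of_preconnected_of_eventuallyEq_zero
        (convex_ball _ _).isPreconnected (mem_ball_self hr0) h2
    obtain ⟨z, hz, hz0⟩ := hne
    exact hz0 (h3 hz)
  obtain ⟨m, κ, hκ, hlow⟩ := low_pow (c N) 0 (hcan N le_rfl) hcN
  obtain ⟨S, hS, hSb⟩ := coef_bdd N c 0 hcan
  obtain ⟨δ, hδ, hδb⟩ := Metric.eventually_nhds_iff_ball.1 (hlow.and hSb)
  apply hTr
  apply mero_of_growth A B hA hB
  refine ⟨max (1 + ‖p‖) (max (‖p‖ + 1 / δ) (‖p‖ + r0)), 1 + ((N : ℝ) + 1) * S / κ * 2 ^ m, m,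
    fun z hz => ?_⟩
  have hz1 : 1 + ‖p‖ < ‖z‖ := lt_of_le_of_lt (le_max_left _ _) hz
  have hz2 : ‖p‖ + 1 / δ < ‖z‖ :=
    lt_of_le_of_lt ((le_max_left _ _).trans (le_max_right _ _)) hz
  have hz3 : ‖p‖ + r0 < ‖z‖ :=
    lt_of_le_of_lt ((le_max_right _ _).trans (le_max_right _ _)) hz
  have hzp : ‖z‖ - ‖p‖ ≤ ‖z - p‖ := norm_sub_norm_le z p
  have hp0 := norm_nonneg p
  have hq0 : 0 < ‖z - p‖ := by linarith
  have hzp0 : z - p ≠ 0 := norm_pos_iff.1 hq0
  obtain ⟨u, hu⟩ : ∃ u : ℂ, u = (z - p)⁻¹ := ⟨_, rfl⟩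
  have hun : ‖u‖ = ‖z - p‖⁻¹ := by rw [hu, norm_inv]
  have hu0 : u ≠ 0 := by rw [hu]; exact inv_ne_zero hzp0
  have hub : u ∈ ball (0 : ℂ) δ := by
    rw [mem_ball_zero_iff, hun, inv_lt_comm₀ hq0 hδ]
    rw [← one_div]
    linarith
  obtain ⟨h1, h2⟩ := hδb u hub
  rw [sub_zero] at h1
  have hcNu : c N u ≠ 0 := by
    intro h3
    rw [h3, norm_zero] at h1
    have : 0 < κ * ‖u‖ ^ m := by
      have := norm_pos_iff.2 hu0
      positivity
    linarith
  -- the relation at `z`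
  have hrz : ∑ k ∈ Finset.range (N + 1), c k u * A z ^ k * B z ^ (N - k) = 0 := by
    obtain ⟨s, hs⟩ : ∃ s : ℂ, s = log (conj (z - p) / r0) := ⟨_, rfl⟩
    have hzc : conj (z - p) / (r0 : ℂ) ≠ 0 := div_ne_zero ((map_ne_zero _).2 hzp0) hr0c
    have hes : exp s = conj (z - p) / r0 := by rw [hs, exp_log hzc]
    have hsre : 0 ≤ s.re := by
      rw [hs, log_re, norm_div, RCLike.norm_conj, Complex.norm_real, Real.norm_of_nonneg hr0.le]
      apply Real.log_nonneg
      rw [le_div_iff₀ hr0]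
      linarith
    have h3 := hfz s hsre
    have e1 : conj p + (r0 : ℂ) * exp s = conj z := by
      rw [hes, mul_div_cancel₀ _ hr0c, map_sub]
      ring
    have e2 : p + (r0 : ℂ) * exp (-s) = p + (r0 : ℂ) ^ 2 * conj u := by
      rw [exp_neg, hes, hu, inv_div, map_inv₀]
      ring
    rw [hf] at h3
    simp only [e1, e2] at h3
    have h4 := congrArg conj h3
    rw [map_sum, map_zero] at h4
    rw [← h4]
    refine Finset.sum_congr rfl fun k _ => ?_
    rw [map_mul, map_mul, map_pow, map_pow, hAs, hBs, hc]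
    simp only [Function.comp_apply, Complex.conj_conj]
  have hBz : B z ≠ 0 := by
    intro hB0
    have h5 := hrz
    rw [Finset.sum_range_succ, Finset.sum_eq_zero, zero_add, Nat.sub_self, pow_zero, mul_one] at h5
    · rcases mul_eq_zero.1 h5 with h6 | h6
      · exact hcNu h6
      · rcases hAB z with h7 | h7
        · exact h7 (eq_zero_of_pow_eq_zero h6)
        · exact h7 hB0
    · intro k hk
      have := Finset.mem_range.1 hk
      rw [hB0, zero_pow (by omega), mul_zero]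
  refine ⟨hBz, ?_⟩
  have hHH : HH N c u (A z / B z) = 0 := by
    have h6 : B z ^ N * HH N c u (A z / B z) = 0 := by
      rw [← hrz]
      unfold HH
      rw [Finset.mul_sum]
      refine Finset.sum_congr rfl fun k hk => ?_
      have hk' : k ≤ N := Nat.lt_succ_iff.1 (Finset.mem_range.1 hk)
      rw [div_pow]
      have h7 : B z ^ N = B z ^ (N - k) * B z ^ k := by
        rw [← pow_add]
        congr 1
        omega
      rw [h7]
      have h8 : B z ^ k ≠ 0 := pow_ne_zero _ hBz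
      field_simp
    rcases mul_eq_zero.1 h6 with h7 | h7
    · exact absurd h7 (pow_ne_zero _ hBz)
    · exact h7
  have hz1' : 1 ≤ ‖z‖ := by linarith
  have hzm : 1 ≤ ‖z‖ ^ m := one_le_pow₀ hz1'
  have hC0 : 0 ≤ ((N : ℝ) + 1) * S / κ * 2 ^ m := by positivity
  rcases le_or_gt 1 ‖A z / B z‖ with h9 | h9
  · have h10 := root_up_pt N c u _ S hS h2 hHH h9
    have h11 : κ * ‖u‖ ^ m * ‖A z / B z‖ ≤ (N + 1) * S :=
      (mul_le_mul_of_nonneg_right h1 (norm_nonneg _)).trans h10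
    have h12 : ‖A z / B z‖ ≤ ((N : ℝ) + 1) * S / κ * ‖z - p‖ ^ m := by
      rw [hun, inv_pow] at h11
      have hqm : 0 < ‖z - p‖ ^ m := by positivity
      have e : κ * (‖z - p‖ ^ m)⁻¹ * ‖A z / B z‖ = κ * ‖A z / B z‖ / ‖z - p‖ ^ m := by
        field_simp
      rw [e, div_le_iff₀ hqm] at h11
      rw [div_mul_eq_mul_div, le_div_iff₀ hκ]
      linarith
    have h13 : ‖z - p‖ ≤ 2 * ‖z‖ := by
      have := norm_sub_le z p
      linarith
    have h14 : ‖z - p‖ ^ m ≤ 2 ^ m * ‖z‖ ^ m := by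
      rw [← mul_pow]
      exact pow_le_pow_left₀ hq0.le h13 m
    calc ‖A z / B z‖ ≤ ((N : ℝ) + 1) * S / κ * ‖z - p‖ ^ m := h12
      _ ≤ ((N : ℝ) + 1) * S / κ * (2 ^ m * ‖z‖ ^ m) :=
          mul_le_mul_of_nonneg_left h14 (by positivity)
      _ ≤ (1 + ((N : ℝ) + 1) * S / κ * 2 ^ m) * ‖z‖ ^ m := by nlinarith
  · calc ‖A z / B z‖ ≤ 1 * ‖z‖ ^ m := by linarith
      _ ≤ (1 + ((N : ℝ) + 1) * S / κ * 2 ^ m) * ‖z‖ ^ m :=
          mul_le_mul_of_nonneg_right (by linarith) (by positivity)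

end Pool.Agent.P8H66.CS
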