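import Mathlib

/-!
The exponential function is transcendental and a covering over the punctured plane.
-/

set_option autoImplicit false

open Complex Metric Set Filter Topology ComplexConjugate

namespace Pool.Agent.P8H66.CS

theorem exp_cov (α : ℂ) (hα : α ≠ 0) :
    IsCoveringMapOn (fun z : ℂ => exp (α * z) / 1) ({0} : Set ℂ)ᶜ := by
  have h1 := Complex.isCoveringMapOn_exp.comp_homeomorph (Homeomorph.mulLeft₀ α hα)
  have h2 : (exp ∘ (Homeomorph.mulLeft₀ α hα)) = fun z : ℂ => exp (α * z) / 1 := by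
    funext z
    simp
  rw [h2] at h1
  exact h1

theorem exp_transc (α : ℂ) (hα : α ≠ 0) :
    ¬ MeromorphicAt (fun u : ℂ => exp (α * u⁻¹) / 1) 0 := by
  rintro ⟨n, hn⟩
  have hdir : Tendsto (fun y : ℝ => α * (y⁻¹ : ℝ)) atTop (𝓝 0) := by
    have h3 : Continuous (fun x : ℝ => α * (x : ℂ)) := by fun_prop
    have h4 := h3.tendsto 0
    simp only [ofReal_zero, mul_zero] at h4
    exact h4.comp tendsto_inv_atTop_zero
  have h1 := (hn.continuousAt.tendsto.comp hdir).norm
  have h2 : Tendsto (fun y : ℝ => ‖α‖ ^ n * (Real.exp y / y ^ n)) atTop atTop :=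
    (Real.tendsto_exp_div_pow_atTop n).const_mul_atTop (by positivity)
  refine not_tendsto_nhds_of_tendsto_atTop (h2.congr' ?_) _ h1
  filter_upwards [eventually_gt_atTop (0 : ℝ)] with y hy
  have e1 : α * (α * ((y⁻¹ : ℝ) : ℂ))⁻¹ = (y : ℂ) := by
    rw [mul_inv, mul_inv_cancel_left₀ hα, ← ofReal_inv, inv_inv]
  simp only [Function.comp_apply, sub_zero, smul_eq_mul, div_one, e1]
  rw [norm_mul, norm_pow, norm_mul, Complex.norm_real, Complex.norm_exp, ofReal_re,
    Real.norm_of_nonneg (by positivity), mul_pow, inv_pow]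
  field_simp

end Pool.Agent.P8H66.CS
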