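import Mathlib

/-!
Growth of logarithms of functions in a disc which have power bounds near a boundary point.
-/

set_option autoImplicit false

open Complex Metric Set Filter Topology

namespace Pool.Agent.P8H66.CS

theorem re_deriv (g : ℂ → ℂ) (w : ℂ) (ρ M : ℝ) (hρ : 0 < ρ) (hM : 0 < M)
    (hg : DifferentiableOn ℂ g (ball w ρ)) (hre : ∀ v ∈ ball w ρ, (g v).re ≤ (g w).re + M) :
    ‖deriv g w‖ ≤ 4 * M / ρ := by
  have hmap : ∀ v ∈ ball (0 : ℂ) ρ, w + v ∈ ball w ρ := by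
    intro v hv
    rw [mem_ball_iff_norm, add_sub_cancel_left]
    exact mem_ball_zero_iff.1 hv
  obtain ⟨f, hf⟩ : ∃ f : ℂ → ℂ, f = fun v => g (w + v) - g w := ⟨_, rfl⟩
  have hfd : DifferentiableOn ℂ f (ball 0 ρ) := by
    rw [hf]
    exact (hg.comp (Differentiable.differentiableOn (by fun_prop)) hmap).sub_const _
  have hf0 : f 0 = 0 := by rw [hf]; simp
  have hfr : MapsTo f (ball 0 ρ) {z | z.re ≤ M} := by
    intro v hv
    have := hre _ (hmap v hv)
    rw [hf]
    show (g (w + v) - g w).re ≤ M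
    rw [sub_re]
    linarith
  have hderiv : deriv f 0 = deriv g w := by
    have h1 : HasDerivAt g (deriv g w) (w + 0) := by
      rw [add_zero]
      exact (hg.differentiableAt (isOpen_ball.mem_nhds (mem_ball_self hρ))).hasDerivAt
    have h2 : HasDerivAt (fun v : ℂ => w + v) 1 0 := (hasDerivAt_id (0 : ℂ)).const_add w
    have h3 := (h1.comp (0 : ℂ) h2).sub_const (g w)
    rw [mul_one] at h3
    rw [hf]
    exact h3.deriv
  have h4 := Complex.norm_deriv_le_of_forall_mem_sphere_norm_le (c := (0 : ℂ)) (R := ρ / 2)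
    (C := 2 * M) (f := f) (by linarith)
    ((hfd.mono (closedBall_subset_ball (by linarith))).diffContOnCl_ball
      (le_refl _)) (fun v hv => by
      have hvn : ‖v‖ = ρ / 2 := by simpa using hv
      have h5 := borelCaratheodory_zero hM hfd hfr hρ (mem_ball_zero_iff.2 (by
        rw [hvn]; linarith)) hf0
      refine h5.trans (le_of_eq ?_)
      rw [hvn]
      field_simp
      ring)
  rw [hderiv] at h4
  refine h4.trans (le_of_eq ?_)
  field_simp
  ring

theorem log_growth (c : ℂ) (ρ : ℝ) (hρ : 0 < ρ) (hρ1 : ρ ≤ 1) (w1 : ℂ) (hw1 : w1 ∈ sphere c ρ)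
    (g : ℂ → ℂ) (hg : DifferentiableOn ℂ g (ball c ρ)) (K C1 : ℝ) (hK : 0 ≤ K) (hC1 : 0 < C1)
    (hlow : ∀ w ∈ ball c ρ, -C1 ≤ (g w).re)
    (hup : ∀ w ∈ ball c ρ, (g w).re ≤ C1 - K * Real.log ‖w - w1‖) :
    ∃ C : ℝ, 0 < C ∧ ∀ w ∈ ball c ρ, ‖g w‖ ≤ C * (1 - Real.log (ρ - ‖w - c‖)) ^ 2 := by
  have hder : ∀ w ∈ ball c ρ, ‖deriv g w‖ * (ρ - ‖w - c‖) ≤
      8 * (2 * C1 + K * (1 - Real.log (ρ - ‖w - c‖))) := by
    intro w hw
    obtain ⟨d, hd⟩ : ∃ d : ℝ, d = ρ - ‖w - c‖ := ⟨_, rfl⟩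
    rw [← hd]
    have hwn : ‖w - c‖ < ρ := mem_ball_iff_norm.1 hw
    have hd0 : 0 < d := by rw [hd]; linarith
    have hd1 : d ≤ 1 := by
      rw [hd]
      have := norm_nonneg (w - c)
      linarith
    have hlog : Real.log d ≤ 0 := Real.log_nonpos hd0.le hd1
    have hM : 0 < 2 * C1 + K * (1 - Real.log d) := by
      have : 0 ≤ K * (1 - Real.log d) := mul_nonneg hK (by linarith)
      linarith
    have hsub : ∀ v ∈ ball w (d / 2), ‖v - c‖ ≤ ρ - d / 2 := by
      intro v hv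
      rw [mem_ball_iff_norm] at hv
      have h1 := norm_add_le (v - w) (w - c)
      rw [sub_add_sub_cancel] at h1
      linarith
    have h1 := re_deriv g w (d / 2) _ (by linarith) hM
      (hg.mono fun v hv => mem_ball_iff_norm.2 (by
        have := hsub v hv
        linarith)) (fun v hv => by
        have h2 := hsub v hv
        have h3 := hup v (mem_ball_iff_norm.2 (by linarith))
        have h4 := hlow w hw
        have h5 : d / 2 ≤ ‖v - w1‖ := by
          have h6 : ‖w1 - c‖ = ρ := mem_sphere_iff_norm.1 hw1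
          have h7 := norm_add_le (w1 - v) (v - c)
          rw [sub_add_sub_cancel, h6, norm_sub_rev w1 v] at h7
          linarith
        have h8 : Real.log (d / 2) ≤ Real.log ‖v - w1‖ := Real.log_le_log (by linarith) h5
        have h9 : Real.log (d / 2) = Real.log d - Real.log 2 :=
          Real.log_div hd0.ne' two_ne_zero
        have h10 : Real.log 2 ≤ 1 := by
          have := Real.log_two_lt_d9
          linarith
        have h11 : -(K * Real.log ‖v - w1‖) ≤ K * (1 - Real.log d) := by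
          have : K * (-Real.log ‖v - w1‖) ≤ K * (1 - Real.log d) :=
            mul_le_mul_of_nonneg_left (by linarith) hK
          linarith
        linarith)
    have h2 := mul_le_mul_of_nonneg_right h1 hd0.le
    refine h2.trans (le_of_eq ?_)
    field_simp
    ring
  refine ⟨‖g c‖ + 8 * (2 * C1 + K), by positivity, fun w hw => ?_⟩
  have hwn : ‖w - c‖ < ρ := mem_ball_iff_norm.1 hw
  obtain ⟨u, hu, hwu⟩ : ∃ u : ℂ, ‖u‖ = 1 ∧ w - c = (‖w - c‖ : ℂ) * u := by
    rcases eq_or_ne (w - c) 0 with h0 | h0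
    · exact ⟨1, norm_one, by rw [h0]; simp⟩
    · refine ⟨(w - c) / (‖w - c‖ : ℂ), ?_, ?_⟩
      · rw [norm_div, Complex.norm_real, norm_norm, div_self (norm_ne_zero_iff.2 h0)]
      · have : (‖w - c‖ : ℂ) ≠ 0 := by exact_mod_cast norm_ne_zero_iff.2 h0
        field_simp
  obtain ⟨d, hd⟩ : ∃ d : ℝ, d = ρ - ‖w - c‖ := ⟨_, rfl⟩
  rw [← hd]
  have hd0 : 0 < d := by rw [hd]; linarith
  have hdρ : d ≤ ρ := by
    rw [hd]
    have := norm_nonneg (w - c)
    linarith
  have hnc : ∀ x : ℝ, -Real.log ρ ≤ x →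
      ‖(c + ((ρ - Real.exp (-x) : ℝ) : ℂ) * u) - c‖ = ρ - Real.exp (-x) := by
    intro x hx
    rw [add_sub_cancel_left, norm_mul, hu, mul_one, Complex.norm_real, Real.norm_of_nonneg]
    have : Real.exp (-x) ≤ ρ := by
      rw [← Real.exp_log hρ]
      exact Real.exp_le_exp.2 (by linarith)
    linarith
  have hin : ∀ x : ℝ, -Real.log ρ ≤ x → c + ((ρ - Real.exp (-x) : ℝ) : ℂ) * u ∈ ball c ρ := by
    intro x hx
    rw [mem_ball_iff_norm, hnc x hx]
    linarith [Real.exp_pos (-x)]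
  have hlρ : Real.log ρ ≤ 0 := Real.log_nonpos hρ.le hρ1
  have hld : Real.log d ≤ Real.log ρ := Real.log_le_log hd0 hdρ
  have h1 := norm_image_sub_le_of_norm_deriv_le_segment' (a := -Real.log ρ) (b := -Real.log d)
    (f := fun x : ℝ => g (c + ((ρ - Real.exp (-x) : ℝ) : ℂ) * u))
    (f' := fun x : ℝ => deriv g (c + ((ρ - Real.exp (-x) : ℝ) : ℂ) * u) *
      (((Real.exp (-x) : ℝ) : ℂ) * u))
    (C := 8 * (2 * C1 + K * (1 - Real.log d))) (fun x hx => by
      have h2 : HasDerivAt (fun x : ℝ => c + ((ρ - Real.exp (-x) : ℝ) : ℂ) * u)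
          (((Real.exp (-x) : ℝ) : ℂ) * u) x := by
        have h3 : HasDerivAt (fun x : ℝ => ρ - Real.exp (-x)) (Real.exp (-x)) x := by
          have := ((Real.hasDerivAt_exp (-x)).comp x (hasDerivAt_neg x)).const_sub ρ
          simpa using this
        exact (h3.ofReal_comp.mul_const u).const_add c
      have h4 : HasDerivAt g (deriv g (c + ((ρ - Real.exp (-x) : ℝ) : ℂ) * u))
          (c + ((ρ - Real.exp (-x) : ℝ) : ℂ) * u) :=
        (hg.differentiableAt (isOpen_ball.mem_nhds (hin x hx.1))).hasDerivAt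
      exact (HasDerivAt.comp x h4 h2).hasDerivWithinAt) (fun x hx => by
      have h5 := hder _ (hin x hx.1)
      rw [hnc x hx.1, sub_sub_cancel, Real.log_exp] at h5
      rw [norm_mul, norm_mul, hu, mul_one, Complex.norm_real,
        Real.norm_of_nonneg (Real.exp_pos _).le]
      refine h5.trans ?_
      have h6 : K * (1 - -x) ≤ K * (1 - Real.log d) :=
        mul_le_mul_of_nonneg_left (by linarith [hx.2]) hK
      linarith) (-Real.log d) ⟨by linarith, le_refl _⟩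
  simp only [neg_neg, Real.exp_log hd0, Real.exp_log hρ, sub_self, Complex.ofReal_zero, zero_mul,
    add_zero] at h1
  have e1 : c + ((ρ - d : ℝ) : ℂ) * u = w := by
    rw [hd, sub_sub_cancel, ← hwu]
    ring
  rw [e1] at h1
  have h7 : ‖g w‖ ≤ ‖g w - g c‖ + ‖g c‖ := by
    have := norm_add_le (g w - g c) (g c)
    rwa [sub_add_cancel] at this
  obtain ⟨L, hL⟩ : ∃ L : ℝ, L = 1 - Real.log d := ⟨_, rfl⟩
  rw [← hL] at h1 ⊢
  have hL1 : 1 ≤ L := by rw [hL]; linarith
  have h8 : -Real.log d - -Real.log ρ ≤ L := by rw [hL]; linarith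
  have h9 : 8 * (2 * C1 + K * L) * (-Real.log d - -Real.log ρ) ≤ 8 * (2 * C1 + K * L) * L :=
    mul_le_mul_of_nonneg_left h8 (by positivity)
  have h10 : 1 ≤ L ^ 2 := one_le_pow₀ hL1
  have h11 : ‖g c‖ ≤ ‖g c‖ * L ^ 2 := le_mul_of_one_le_right (norm_nonneg _) h10
  have h12 : C1 * L ≤ C1 * L ^ 2 := by
    apply mul_le_mul_of_nonneg_left _ hC1.le
    nlinarith
  have h13 : 8 * (2 * C1 + K * L) * L ≤ 8 * (2 * C1 + K) * L ^ 2 := by nlinarith
  calc ‖g w‖ ≤ ‖g w - g c‖ + ‖g c‖ := h7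
    _ ≤ 8 * (2 * C1 + K) * L ^ 2 + ‖g c‖ * L ^ 2 := by linarith
    _ = (‖g c‖ + 8 * (2 * C1 + K)) * L ^ 2 := by ring

theorem small (C' C : ℝ) (n : ℕ) (hC' : 0 < C') (hC : 0 < C) (η : ℝ) (hη : 0 < η) :
    ∃ δ : ℝ, 0 < δ ∧ ∀ d : ℝ, 0 < d → d < δ → d * (C' * (1 + C * (1 - Real.log d) ^ 2) ^ n) ≤ η := by
  have h1 := (Real.tendsto_pow_mul_exp_neg_atTop_nhds_zero (2 * n)).eventually
    (gt_mem_nhds (show 0 < η / (Real.exp 1 * (C' * (1 + C) ^ n)) by positivity))
  obtain ⟨X, hX⟩ := eventually_atTop.1 h1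
  refine ⟨min 1 (Real.exp (1 - X)), lt_min one_pos (Real.exp_pos _), fun d hd hdδ => ?_⟩
  have hd1 : d < 1 := lt_of_lt_of_le hdδ (min_le_left _ _)
  have hd2 : d < Real.exp (1 - X) := lt_of_lt_of_le hdδ (min_le_right _ _)
  obtain ⟨L, hL⟩ : ∃ L : ℝ, L = 1 - Real.log d := ⟨_, rfl⟩
  rw [← hL]
  have hlog : Real.log d < 0 := Real.log_neg hd hd1
  have hL1 : 1 ≤ L := by rw [hL]; linarith
  have hLX : X ≤ L := by
    have := (Real.log_lt_iff_lt_exp hd).2 hd2
    rw [hL]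
    linarith
  have h2 := hX L hLX
  have h3 : Real.exp (-L) = d / Real.exp 1 := by
    rw [hL, show -(1 - Real.log d) = Real.log d - 1 by ring, Real.exp_sub, Real.exp_log hd]
  rw [h3] at h2
  have h4 : 1 + C * L ^ 2 ≤ (1 + C) * L ^ 2 := by
    have : 1 ≤ L ^ 2 := one_le_pow₀ hL1
    linarith
  have h5 : (1 + C * L ^ 2) ^ n ≤ (1 + C) ^ n * L ^ (2 * n) := by
    rw [pow_mul, ← mul_pow]
    exact pow_le_pow_left₀ (by positivity) h4 n
  have h6 : L ^ (2 * n) * d ≤ η / (C' * (1 + C) ^ n) := by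
    have e1 : η / (Real.exp 1 * (C' * (1 + C) ^ n)) = η / (C' * (1 + C) ^ n) / Real.exp 1 := by
      rw [div_div, mul_comm (Real.exp 1)]
    have e2 : L ^ (2 * n) * (d / Real.exp 1) = L ^ (2 * n) * d / Real.exp 1 := by ring
    rw [e1, e2] at h2
    exact ((div_lt_div_iff_of_pos_right (Real.exp_pos 1)).1 h2).le
  calc d * (C' * (1 + C * L ^ 2) ^ n) ≤ d * (C' * ((1 + C) ^ n * L ^ (2 * n))) := by
        apply mul_le_mul_of_nonneg_left _ hd.le
        exact mul_le_mul_of_nonneg_left h5 hC'.le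
    _ = (C' * (1 + C) ^ n) * (L ^ (2 * n) * d) := by ring
    _ ≤ (C' * (1 + C) ^ n) * (η / (C' * (1 + C) ^ n)) :=
        mul_le_mul_of_nonneg_left h6 (by positivity)
    _ = η := by
        field_simp

end Pool.Agent.P8H66.CS
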