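import Pool.Agent.P8H66.CS.Lift
import Pool.Agent.P8H66.CS.Grow
import Pool.Agent.P8H66.CS.Alg

/-!
Slow growth near a point of the circle of convergence.
-/

set_option autoImplicit false

open Complex Metric Set Filter Topology
open Pool.Agent.P8H73.SF (HH HH_analytic fin_pos roots_fin)

namespace Pool.Agent.P8H66.CS

theorem finish (G : ℂ → ℂ) (E : Set ℂ) (hcov : IsCoveringMapOn G Eᶜ)
    (hGan : ∀ x, G x ∉ E → AnalyticAt ℂ G x) (s0 X1 : ℝ) (f : ℂ → ℂ)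
    (hf : DifferentiableOn ℂ f {s | s0 < s.re}) (hfE : ∀ s : ℂ, s0 < s.re → f s ∉ E)
    (htr : ∀ Ψ : ℂ → ℂ, DifferentiableOn ℂ Ψ {s | s0 < s.re} →
      (∀ s : ℂ, s0 < s.re → G (Ψ s) = f s) →
      ∃ (C : ℝ) (n : ℕ), 0 < C ∧ ∀ s : ℂ, X1 ≤ s.re → ‖Ψ s‖ ≤ C * (1 + ‖s‖) ^ n)
    (c : ℂ) (ρ : ℝ) (hρ : 0 < ρ) (hρ1 : ρ ≤ 1) (w1 : ℂ) (hw1 : w1 ∈ sphere c ρ) (ψ g : ℂ → ℂ)
    (hψ : ContinuousOn ψ (ball c ρ)) (hg : DifferentiableOn ℂ g (ball c ρ))
    (hfg : ∀ w ∈ ball c ρ, f (g w) = G (ψ w)) (hs0 : ∀ w ∈ ball c ρ, s0 < (g w).re)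
    (hX1 : ∀ w ∈ ball c ρ, X1 ≤ (g w).re) (K C1 : ℝ) (hK : 0 ≤ K)
    (hup : ∀ w ∈ ball c ρ, (g w).re ≤ C1 - K * Real.log ‖w - w1‖) (η : ℝ) (hη : 0 < η) :
    ∃ δ : ℝ, 0 < δ ∧ ∀ w ∈ ball c ρ, ‖w - w1‖ < δ → (ρ - ‖w - c‖) * ‖ψ w‖ ≤ η := by
  have hcc : c ∈ ball c ρ := mem_ball_self hρ
  obtain ⟨Ψ, hΨc, hGΨ, hΨ0⟩ := lift_exists G E hcov {s | s0 < s.re} (half_open s0)
    (half_convex s0) f hf.continuousOn hfE (g c) (ψ c) (hs0 c hcc) (hfg c hcc).symm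
  have hΨ := lift_diff G E hcov hGan _ (half_open s0) f hf hfE Ψ hΨc hGΨ
  obtain ⟨C', n, hC', hbd⟩ := htr Ψ hΨ hGΨ
  have hmaps : MapsTo g (ball c ρ) {s : ℂ | s0 < s.re} := fun w hw => hs0 w hw
  have heq : EqOn (fun w => Ψ (g w)) ψ (ball c ρ) :=
    lift_unique G E hcov (ball c ρ) isOpen_ball (convex_ball c ρ) (fun w => f (g w))
      (hf.continuousOn.comp hg.continuousOn hmaps) (fun w hw => hfE _ (hs0 w hw)) _ _
      (hΨc.comp hg.continuousOn hmaps) hψ (fun w hw => hGΨ _ (hs0 w hw))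
      (fun w hw => (hfg w hw).symm) c hcc hΨ0
  obtain ⟨C, hC, hgr⟩ := log_growth c ρ hρ hρ1 w1 hw1 g hg K (|C1| + |X1| + 1) hK (by positivity)
    (fun w hw => by
      have h1 := hX1 w hw
      have h2 := neg_abs_le X1
      have h3 := abs_nonneg C1
      linarith) (fun w hw => by
      have h1 := hup w hw
      have h2 := le_abs_self C1
      have h3 := abs_nonneg X1
      linarith)
  obtain ⟨δ, hδ, hδb⟩ := small C' C n hC' hC η hη
  refine ⟨δ, hδ, fun w hw hwd => ?_⟩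
  have hwn : ‖w - c‖ < ρ := mem_ball_iff_norm.1 hw
  have hd0 : 0 < ρ - ‖w - c‖ := by linarith
  have hd1 : ρ - ‖w - c‖ < δ := by
    have h7 : ‖w1 - c‖ = ρ := mem_sphere_iff_norm.1 hw1
    have h8 := norm_add_le (w1 - w) (w - c)
    rw [sub_add_sub_cancel, h7, norm_sub_rev w1 w] at h8
    linarith
  refine le_trans ?_ (hδb _ hd0 hd1)
  apply mul_le_mul_of_nonneg_left _ hd0.le
  have h1 : ψ w = Ψ (g w) := (heq hw).symm
  rw [h1]
  refine (hbd (g w) (hX1 w hw)).trans ?_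
  apply mul_le_mul_of_nonneg_left _ hC'.le
  apply pow_le_pow_left₀ (by positivity)
  have := hgr w hw
  linarith

theorem disc_geom (c w1 : ℂ) (ρ ρ' : ℝ) (hρ : 0 < ρ) (hρ' : 0 < ρ') (hle : ρ' ≤ ρ)
    (hw1 : w1 ∈ sphere c ρ) :
    w1 ∈ sphere (w1 + ((ρ' / ρ : ℝ) : ℂ) * (c - w1)) ρ' ∧
      closedBall (w1 + ((ρ' / ρ : ℝ) : ℂ) * (c - w1)) ρ' ⊆ closedBall c ρ ∧
      ball (w1 + ((ρ' / ρ : ℝ) : ℂ) * (c - w1)) ρ' ⊆ ball c ρ ∧
      ball (w1 + ((ρ' / ρ : ℝ) : ℂ) * (c - w1)) ρ' ⊆ ball w1 (2 * ρ') := by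
  have h1 : ‖c - w1‖ = ρ := by
    rw [norm_sub_rev]
    exact mem_sphere_iff_norm.1 hw1
  have h2 : ‖w1 + ((ρ' / ρ : ℝ) : ℂ) * (c - w1) - w1‖ = ρ' := by
    rw [add_sub_cancel_left, norm_mul, h1, Complex.norm_real, Real.norm_of_nonneg (by positivity)]
    field_simp
  have h3 : ‖w1 + ((ρ' / ρ : ℝ) : ℂ) * (c - w1) - c‖ = ρ - ρ' := by
    have e : w1 + ((ρ' / ρ : ℝ) : ℂ) * (c - w1) - c = -(((1 - ρ' / ρ : ℝ) : ℂ) * (c - w1)) := by
      push_cast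
      ring
    have h4 : ρ' / ρ ≤ 1 := (div_le_one hρ).2 hle
    rw [e, norm_neg, norm_mul, h1, Complex.norm_real, Real.norm_of_nonneg (by linarith)]
    field_simp
  refine ⟨?_, ?_, ?_, ?_⟩
  · rw [mem_sphere_iff_norm, norm_sub_rev]
    exact h2
  · intro w hw
    rw [mem_closedBall_iff_norm] at hw ⊢
    have := norm_add_le (w - (w1 + ((ρ' / ρ : ℝ) : ℂ) * (c - w1)))
      (w1 + ((ρ' / ρ : ℝ) : ℂ) * (c - w1) - c)
    rw [sub_add_sub_cancel] at this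
    linarith
  · intro w hw
    rw [mem_ball_iff_norm] at hw ⊢
    have := norm_add_le (w - (w1 + ((ρ' / ρ : ℝ) : ℂ) * (c - w1)))
      (w1 + ((ρ' / ρ : ℝ) : ℂ) * (c - w1) - c)
    rw [sub_add_sub_cancel] at this
    linarith
  · intro w hw
    rw [mem_ball_iff_norm] at hw ⊢
    have := norm_add_le (w - (w1 + ((ρ' / ρ : ℝ) : ℂ) * (c - w1)))
      (w1 + ((ρ' / ρ : ℝ) : ℂ) * (c - w1) - w1)
    rw [sub_add_sub_cancel] at this
    linarith

theorem exp_eq_period (s s' : ℂ) (h : exp s = exp s') :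
    ∃ k : ℤ, s' = s + (2 * Real.pi * k : ℝ) * I := by
  obtain ⟨n, hn⟩ := exp_eq_exp_iff_exists_int.1 h.symm
  refine ⟨n, ?_⟩
  rw [hn]
  push_cast
  ring

theorem exp_period (s : ℂ) (k : ℤ) : exp (s + (2 * Real.pi * k : ℝ) * I) = exp s := by
  rw [exp_eq_exp_iff_exists_int]
  exact ⟨k, by push_cast; ring⟩

/-- the local theorem -/
theorem local_small (G : ℂ → ℂ) (E : Set ℂ) (hE : E.Finite) (hcov : IsCoveringMapOn G Eᶜ)
    (hGan : ∀ x, G x ∉ E → AnalyticAt ℂ G x)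
    (hT : ¬ ∃ (K C : ℝ) (m : ℕ), ∀ z : ℂ, K < ‖z‖ → G z ∉ E ∧ ‖G z‖ ≤ C * ‖z‖ ^ m)
    (c : ℂ) (ρ : ℝ) (hρ : 0 < ρ) (w1 : ℂ) (hw1 : w1 ∈ sphere c ρ) (ψ : ℂ → ℂ)
    (hψ : DifferentiableOn ℂ ψ (ball c ρ)) (hyan : ∀ w ∈ ball c ρ, AnalyticAt ℂ G (ψ w))
    (hnc : ∀ (a : ℂ) (δ : ℝ), 0 < δ → ∃ w ∈ ball c ρ ∩ ball w1 δ, G (ψ w) ≠ a)
    (N : ℕ) (h : ℕ → ℂ → ℂ) (hh : ∀ k ≤ N, AnalyticAt ℂ (h k) w1)
    (hN : ¬ ∀ᶠ z in 𝓝 w1, h N z = 0)
    (hrel : ∀ᶠ w in 𝓝 w1, w ∈ ball c ρ → HH N h w (G (ψ w)) = 0) :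
    ∃ ρ' : ℝ, 0 < ρ' ∧ ρ' ≤ ρ ∧ ∀ η : ℝ, 0 < η → ∃ δ : ℝ, 0 < δ ∧
      ∀ w ∈ ball (w1 + ((ρ' / ρ : ℝ) : ℂ) * (c - w1)) ρ', ‖w - w1‖ < δ →
        (ρ' - ‖w - (w1 + ((ρ' / ρ : ℝ) : ℂ) * (c - w1))‖) * ‖ψ w‖ ≤ η := by
  classical
  have hwne : ∀ w ∈ ball c ρ, w ≠ w1 := by
    rintro w hw rfl
    have h5 : ‖w - c‖ = ρ := mem_sphere_iff_norm.1 hw1
    have h6 : ‖w - c‖ < ρ := mem_ball_iff_norm.1 hw
    linarith
  obtain ⟨e, g, hgan, hfac, hgN, hgZ⟩ := factor N h w1 hh hN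
  have hrel' : ∀ᶠ w in 𝓝 w1, w ∈ ball c ρ → HH N g w (G (ψ w)) = 0 := by
    filter_upwards [hfac, hrel] with w h1 h2 hw
    have h3 := h2 hw
    have h4 : HH N h w (G (ψ w)) = (w - w1) ^ e * HH N g w (G (ψ w)) := by
      unfold HH
      rw [Finset.mul_sum]
      refine Finset.sum_congr rfl fun i hi => ?_
      rw [h1 i hi, mul_assoc]
    rw [h4] at h3
    rcases mul_eq_zero.1 h3 with h5 | h5
    · exact absurd h5 (pow_ne_zero _ (sub_ne_zero.2 (hwne w hw)))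
    · exact h5
  obtain ⟨s, hs⟩ := roots_fin N g w1 hgZ
  obtain ⟨E', hE'⟩ : ∃ E' : Finset ℂ, E' = s ∪ hE.toFinset := ⟨_, rfl⟩
  have hEE' : ∀ b ∈ E, b ∈ E' := fun b hb => by
    rw [hE']
    exact Finset.mem_union_right _ (hE.mem_toFinset.2 hb)
  obtain ⟨σ, hσ, hσs⟩ := fin_pos (E' ×ˢ E')
    (fun p : ℂ × ℂ => if p.1 = p.2 then 1 else ‖p.1 - p.2‖) (fun p _ => by
      split_ifs with hpp
      · exact one_pos
      · exact norm_pos_iff.2 (sub_ne_zero.2 hpp))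
  have hσ2 : ∀ a ∈ E', ∀ b ∈ E', a ≠ b → σ ≤ ‖a - b‖ := by
    intro a ha b hb hab
    have h1 := hσs (a, b) (Finset.mk_mem_product ha hb)
    simp only [if_neg hab] at h1
    exact h1
  obtain ⟨K0, hK0⟩ : ∃ K0 : ℝ, ∀ a ∈ E', ‖a‖ ≤ K0 :=
    ⟨∑ a ∈ E', ‖a‖, fun a ha => Finset.single_le_sum (f := fun a => ‖a‖)
      (fun _ _ => norm_nonneg _) ha⟩
  have hwit : ∀ a : ℂ, ∃ z0 : ℂ, ContinuousAt G z0 ∧ G z0 ≠ a := by
    intro a
    obtain ⟨w, hw, hwa⟩ := hnc a 1 one_pos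
    exact ⟨ψ w, (hyan w hw.1).continuousAt, hwa⟩
  -- finite tracts
  have htra : ∀ a ∈ E', ∃ X1 : ℝ, -Real.log σ ≤ X1 ∧ ∀ Ψ : ℂ → ℂ,
      DifferentiableOn ℂ Ψ {s | -Real.log σ < s.re} →
      (∀ s : ℂ, -Real.log σ < s.re → G (Ψ s) = a + exp (-s)) →
      ∃ (C : ℝ) (n : ℕ), 0 < C ∧ ∀ s : ℂ, X1 ≤ s.re → ‖Ψ s‖ ≤ C * (1 + ‖s‖) ^ n := by
    intro a ha
    have hne : ∀ s : ℂ, ‖exp (-s)‖ = Real.exp (-s.re) := fun s => by
      rw [Complex.norm_exp, neg_re]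
    have hsm : ∀ s : ℂ, -Real.log σ < s.re → ‖exp (-s)‖ < σ := by
      intro s hs
      rw [hne, ← Real.exp_log hσ]
      exact Real.exp_lt_exp.2 (by linarith)
    refine tract G E hcov hT (-Real.log σ) (fun s => a + exp (-s))
      (Differentiable.differentiableOn (by fun_prop)) ?_ ?_ ?_ ?_ ?_
    · intro s hs hmem
      have h1 := hEE' _ hmem
      rcases eq_or_ne (a + exp (-s)) a with h2 | h2
      · exact exp_ne_zero (-s) (add_eq_left.1 h2)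
      · have h3 := hσ2 _ h1 a ha h2
        rw [add_sub_cancel_left] at h3
        have := hsm s hs
        linarith
    · intro s s' _ _ h1
      have h2 : exp (-s') = exp (-s) := (add_left_cancel h1).symm
      obtain ⟨k, hk⟩ := exp_eq_period _ _ h2
      refine ⟨k, ?_⟩
      have : s' = s + (2 * Real.pi * k : ℝ) * I := by linear_combination hk
      exact this
    · intro s k _
      have h1 := exp_period (-s) (-k)
      have e : -s + (2 * Real.pi * ((-k : ℤ) : ℝ) : ℝ) * I = -(s + (2 * Real.pi * k : ℝ) * I) := by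
        push_cast
        ring
      rw [e] at h1
      show a + exp (-(s + (2 * Real.pi * k : ℝ) * I)) = a + exp (-s)
      rw [h1]
    · refine ⟨(‖a‖ + σ) * σ, fun s hs => ?_⟩
      have h1 := hsm s hs
      have h2 : ‖a + exp (-s)‖ ≤ ‖a‖ + σ := (norm_add_le _ _).trans (by linarith)
      have h3 : 1 ≤ σ * Real.exp s.re := by
        have : Real.exp (-Real.log σ) ≤ Real.exp s.re := Real.exp_le_exp.2 hs.le
        rw [Real.exp_neg, Real.exp_log hσ] at this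
        have h4 := mul_le_mul_of_nonneg_left this hσ.le
        rwa [mul_inv_cancel₀ hσ.ne'] at h4
      have h5 : 0 ≤ ‖a‖ + σ := by positivity
      calc ‖a + exp (-s)‖ ≤ (‖a‖ + σ) * 1 := by rw [mul_one]; exact h2
        _ ≤ (‖a‖ + σ) * (σ * Real.exp s.re) := mul_le_mul_of_nonneg_left h3 h5
        _ = (‖a‖ + σ) * σ * Real.exp s.re := by ring
    · obtain ⟨z0, hz0, hz0a⟩ := hwit a
      have hp : 0 < ‖G z0 - a‖ := norm_pos_iff.2 (sub_ne_zero.2 hz0a)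
      refine ⟨z0, -Real.log (‖G z0 - a‖ / 2), ‖G z0 - a‖ / 2, by linarith, hz0, fun s hs => ?_⟩
      have h1 : ‖exp (-s)‖ < ‖G z0 - a‖ / 2 := by
        rw [hne, ← Real.exp_log (half_pos hp)]
        exact Real.exp_lt_exp.2 (by linarith)
      have h2 : ‖G z0 - a‖ ≤ ‖a + exp (-s) - G z0‖ + ‖exp (-s)‖ := by
        have := norm_sub_le (a + exp (-s) - G z0) (exp (-s))
        have e : a + exp (-s) - G z0 - exp (-s) = -(G z0 - a) := by ring
        rw [e, norm_neg] at this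
        exact this
      show ‖G z0 - a‖ / 2 ≤ ‖a + exp (-s) - G z0‖
      linarith
  choose! X hXs hX using htra
  -- the tract at infinity
  have hK01 : 0 < |K0| + 1 := by positivity
  obtain ⟨Y, hYs, hY⟩ : ∃ X1 : ℝ, Real.log (|K0| + 1) ≤ X1 ∧ ∀ Ψ : ℂ → ℂ,
      DifferentiableOn ℂ Ψ {s | Real.log (|K0| + 1) < s.re} →
      (∀ s : ℂ, Real.log (|K0| + 1) < s.re → G (Ψ s) = exp s) →
      ∃ (C : ℝ) (n : ℕ), 0 < C ∧ ∀ s : ℂ, X1 ≤ s.re → ‖Ψ s‖ ≤ C * (1 + ‖s‖) ^ n := by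
    refine tract G E hcov hT (Real.log (|K0| + 1)) exp
      (Differentiable.differentiableOn (by fun_prop)) ?_ ?_ ?_ ?_ ?_
    · intro s hs hmem
      have h1 := hK0 _ (hEE' _ hmem)
      rw [Complex.norm_exp] at h1
      have h2 := (Real.log_lt_iff_lt_exp hK01).1 hs
      have := le_abs_self K0
      linarith
    · intro s s' _ _ h1
      exact exp_eq_period s s' h1
    · intro s k _
      exact exp_period s k
    · exact ⟨1, fun s _ => by rw [Complex.norm_exp, one_mul]⟩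
    · obtain ⟨z0, hz0, -⟩ := hwit 0
      refine ⟨z0, Real.log (‖G z0‖ + 1), 1, one_pos, hz0, fun s hs => ?_⟩
      have h1 := (Real.log_lt_iff_lt_exp (by positivity : 0 < ‖G z0‖ + 1)).1 hs
      have h2 := norm_sub_norm_le (exp s) (G z0)
      rw [Complex.norm_exp] at h2
      linarith
  obtain ⟨ε1, hε1, hε1s⟩ := fin_pos E' (fun a => Real.exp (-X a)) (fun _ _ => Real.exp_pos _)
  obtain ⟨ε, hε, hεσ, hεX⟩ : ∃ ε : ℝ, 0 < ε ∧ 3 * ε ≤ σ ∧ ∀ a ∈ E', ε ≤ Real.exp (-X a) := by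
    refine ⟨min (σ / 3) ε1, lt_min (by linarith) hε1, ?_, fun a ha =>
      (min_le_right _ _).trans (hε1s a ha)⟩
    have := min_le_left (σ / 3) ε1
    linarith
  obtain ⟨K, hK1, hKE, hKY⟩ : ∃ K : ℝ, 1 ≤ K ∧ (∀ a ∈ E', ‖a‖ + ε ≤ K) ∧
      Real.exp Y ≤ K := by
    refine ⟨max 1 (max (K0 + ε) (Real.exp Y)), le_max_left _ _, fun a ha => ?_,
      (le_max_right _ _).trans (le_max_right _ _)⟩
    have h1 := hK0 a ha
    have h2 : K0 + ε ≤ max 1 (max (K0 + ε) (Real.exp Y)) :=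
      (le_max_left _ _).trans (le_max_right _ _)
    linarith
  have hyd : DifferentiableOn ℂ (fun w => G (ψ w)) (ball c ρ) := by
    intro w hw
    exact (DifferentiableAt.comp (g := G) (f := ψ) w (hyan w hw).differentiableAt
      (hψ.differentiableAt (isOpen_ball.mem_nhds hw))).differentiableWithinAt
  obtain ⟨δ1, hδ1, hloc⟩ := locate c ρ w1 (fun w => G (ψ w)) hyd.continuousOn N g hgan hrel' E'
    (fun Z hZ => by rw [hE']; exact Finset.mem_union_left _ ((hs Z).1 hZ)) ε K hε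
    (fun a ha b hb hab => hεσ.trans (hσ2 a ha b hb hab)) hKE
  rcases hloc with hout | ⟨a, ha, hin⟩
  · -- infinity
    obtain ⟨m, S, hS, hup⟩ := root_up c ρ w1 (fun w => G (ψ w)) N g hgan hgN hrel'
    obtain ⟨δ2, hδ2, hδ2b⟩ := Metric.eventually_nhds_iff_ball.1 hup
    obtain ⟨ρ', hρ', hρρ, hρ1, hρ2, hρ3⟩ : ∃ ρ' : ℝ, 0 < ρ' ∧ ρ' ≤ ρ ∧ ρ' ≤ 1 ∧ 2 * ρ' ≤ δ1 ∧
        2 * ρ' ≤ δ2 := by
      refine ⟨min (min ρ 1) (min (δ1 / 2) (δ2 / 2)), by positivity, ?_, ?_, ?_, ?_⟩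
      · exact (min_le_left _ _).trans (min_le_left _ _)
      · exact (min_le_left _ _).trans (min_le_right _ _)
      · have := (min_le_right (min ρ 1) (min (δ1 / 2) (δ2 / 2))).trans (min_le_left _ _)
        linarith
      · have := (min_le_right (min ρ 1) (min (δ1 / 2) (δ2 / 2))).trans (min_le_right _ _)
        linarith
    obtain ⟨hg1, -, hg2, hg3⟩ := disc_geom c w1 ρ ρ' hρ hρ' hρρ hw1
    refine ⟨ρ', hρ', hρρ, ?_⟩
    obtain ⟨c', hc'⟩ : ∃ c' : ℂ, c' = w1 + ((ρ' / ρ : ℝ) : ℂ) * (c - w1) := ⟨_, rfl⟩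
    rw [← hc'] at hg1 hg2 hg3 ⊢
    have hbig : ∀ w ∈ ball c' ρ', K < ‖G (ψ w)‖ := fun w hw =>
      hout w ⟨hg2 hw, ball_subset_ball hρ2 (hg3 hw)⟩
    obtain ⟨F, hF, hFe⟩ := exists_log (ball c' ρ') isOpen_ball (convex_ball _ _)
      ⟨c', mem_ball_self hρ'⟩ (fun w => G (ψ w)) (hyd.mono hg2) (fun w hw h0 => by
        have := hbig w hw
        rw [h0, norm_zero] at this
        linarith)
    have hFre : ∀ w ∈ ball c' ρ', (F w).re = Real.log ‖G (ψ w)‖ := by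
      intro w hw
      rw [← hFe w hw, Complex.norm_exp, Real.log_exp]
    intro η hη
    refine finish G E hcov hGan (Real.log (|K0| + 1)) Y exp
      (Differentiable.differentiableOn (by fun_prop)) ?_ hY c' ρ' hρ' hρ1 w1 hg1 ψ F
      (hψ.mono hg2).continuousOn hF hFe ?_ ?_ m (Real.log S) (by positivity) ?_ η hη
    · intro s hs hmem
      have h1 := hK0 _ (hEE' _ hmem)
      rw [Complex.norm_exp] at h1
      have h2 := (Real.log_lt_iff_lt_exp hK01).1 hs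
      have := le_abs_self K0
      linarith
    · intro w hw
      rw [hFre w hw]
      have h1 := hbig w hw
      refine lt_of_le_of_lt hYs ?_
      rw [Real.lt_log_iff_exp_lt (by linarith)]
      linarith
    · intro w hw
      rw [hFre w hw]
      have h1 := hbig w hw
      rw [Real.le_log_iff_exp_le (by linarith)]
      linarith
    · intro w hw
      rw [hFre w hw]
      have h1 := hbig w hw
      have h2 := hδ2b w (ball_subset_ball hρ3 (hg3 hw)) (hg2 hw) (by linarith)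
      have h3 : 0 < ‖w - w1‖ := norm_pos_iff.2 (sub_ne_zero.2 (hwne w (hg2 hw)))
      have h5 : 0 < ‖G (ψ w)‖ := by linarith
      have h4 := Real.log_le_log (by positivity) h2
      rw [Real.log_mul h5.ne' (by positivity), Real.log_pow] at h4
      linarith
  · -- a finite value
    obtain ⟨g', hg'N, hg'an, hg'⟩ := shift N g a
    obtain ⟨m, κ, hκ, hlow⟩ := root_low c ρ w1 hw1 (fun w => G (ψ w) - a) (hyd.sub_const a)
      (fun δ hδ => by
        obtain ⟨w, hw, hwa⟩ := hnc a δ hδ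
        exact ⟨w, hw, sub_ne_zero.2 hwa⟩) ε
      (by
        filter_upwards [ball_mem_nhds w1 hδ1] with w hw hwb
        exact (hin w ⟨hwb, hw⟩).le) N g' (hg'an w1 hgan) (by rw [hg'N]; exact hgN)
      (by
        filter_upwards [hrel'] with w hw hwb
        rw [hg', sub_add_cancel]
        exact hw hwb)
    obtain ⟨δ2, hδ2, hδ2b⟩ := Metric.eventually_nhds_iff_ball.1 hlow
    obtain ⟨ρ', hρ', hρρ, hρ1, hρ2, hρ3⟩ : ∃ ρ' : ℝ, 0 < ρ' ∧ ρ' ≤ ρ ∧ ρ' ≤ 1 ∧ 2 * ρ' ≤ δ1 ∧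
        2 * ρ' ≤ δ2 := by
      refine ⟨min (min ρ 1) (min (δ1 / 2) (δ2 / 2)), by positivity, ?_, ?_, ?_, ?_⟩
      · exact (min_le_left _ _).trans (min_le_left _ _)
      · exact (min_le_left _ _).trans (min_le_right _ _)
      · have := (min_le_right (min ρ 1) (min (δ1 / 2) (δ2 / 2))).trans (min_le_left _ _)
        linarith
      · have := (min_le_right (min ρ 1) (min (δ1 / 2) (δ2 / 2))).trans (min_le_right _ _)
        linarith
    obtain ⟨hg1, -, hg2, hg3⟩ := disc_geom c w1 ρ ρ' hρ hρ' hρρ hw1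
    refine ⟨ρ', hρ', hρρ, ?_⟩
    obtain ⟨c', hc'⟩ : ∃ c' : ℂ, c' = w1 + ((ρ' / ρ : ℝ) : ℂ) * (c - w1) := ⟨_, rfl⟩
    rw [← hc'] at hg1 hg2 hg3 ⊢
    have hnear : ∀ w ∈ ball c' ρ', ‖G (ψ w) - a‖ < ε := fun w hw =>
      hin w ⟨hg2 hw, ball_subset_ball hρ2 (hg3 hw)⟩
    have hlow' : ∀ w ∈ ball c' ρ', κ * ‖w - w1‖ ^ m ≤ ‖G (ψ w) - a‖ := fun w hw =>
      hδ2b w (ball_subset_ball hρ3 (hg3 hw)) (hg2 hw)
    have hpos : ∀ w ∈ ball c' ρ', 0 < ‖w - w1‖ := fun w hw =>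
      norm_pos_iff.2 (sub_ne_zero.2 (hwne w (hg2 hw)))
    have hyp : ∀ w ∈ ball c' ρ', 0 < ‖G (ψ w) - a‖ := fun w hw => by
      have h1 := hlow' w hw
      have h2 := hpos w hw
      have : 0 < κ * ‖w - w1‖ ^ m := by positivity
      linarith
    obtain ⟨F, hF, hFe⟩ := exists_log (ball c' ρ') isOpen_ball (convex_ball _ _)
      ⟨c', mem_ball_self hρ'⟩ (fun w => G (ψ w) - a) ((hyd.mono hg2).sub_const a)
      (fun w hw => norm_pos_iff.1 (hyp w hw))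
    have hFre : ∀ w ∈ ball c' ρ', (-F w).re = -Real.log ‖G (ψ w) - a‖ := by
      intro w hw
      rw [← hFe w hw, Complex.norm_exp, Real.log_exp, neg_re]
    have hXw : ∀ w ∈ ball c' ρ', X a < (-F w).re := by
      intro w hw
      rw [hFre w hw]
      have h1 := (hnear w hw).trans_le (hεX a ha)
      have h2 := (Real.log_lt_iff_lt_exp (hyp w hw)).2 h1
      linarith
    intro η hη
    have hσX := hXs a ha
    refine finish G E hcov hGan (-Real.log σ) (X a) (fun s => a + exp (-s))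
      (Differentiable.differentiableOn (by fun_prop)) ?_ (hX a ha) c' ρ' hρ' hρ1 w1 hg1 ψ
      (fun w => -F w) (hψ.mono hg2).continuousOn hF.fun_neg ?_ ?_ ?_ m (-Real.log κ)
      (by positivity) ?_ η hη
    · intro s hs hmem
      have h1 := hEE' _ hmem
      have hne : ‖exp (-s)‖ < σ := by
        rw [Complex.norm_exp, neg_re, ← Real.exp_log hσ]
        exact Real.exp_lt_exp.2 (by linarith)
      rcases eq_or_ne (a + exp (-s)) a with h2 | h2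
      · exact exp_ne_zero (-s) (add_eq_left.1 h2)
      · have h3 := hσ2 _ h1 a ha h2
        rw [add_sub_cancel_left] at h3
        linarith
    · intro w hw
      show a + exp (-(-F w)) = G (ψ w)
      rw [neg_neg, hFe w hw]
      ring
    · intro w hw
      exact lt_of_le_of_lt hσX (hXw w hw)
    · intro w hw
      exact (hXw w hw).le
    · intro w hw
      show (-F w).re ≤ _
      rw [hFre w hw]
      have h2 := hpos w hw
      have h4 := Real.log_le_log (by positivity) (hlow' w hw)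
      rw [Real.log_mul hκ.ne' (by positivity), Real.log_pow] at h4
      linarith

end Pool.Agent.P8H66.CS
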