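import Pool.Agent.P8H73.SF.Step
import Pool.Agent.P8H66.CS.LocalC
import Pool.Agent.P8H66.CS.Mero

/-!
Extension of the Riemann map across its circle of convergence when the conjugate of a function with
finitely many singular values is algebroid on the boundary.
-/

set_option autoImplicit false

open MeasureTheory Complex Metric Set Filter Topology ComplexConjugate
open Pool.Agent.Results.MP_83fd13_an.BranchSingularities (Solvable Branch BranchesBlowUp)
open Pool.Agent.P8H73.SF (HH refl_diff branch_radial circle_acc)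

namespace Pool.Agent.P8H66.CS

theorem punct_pre : IsPreconnected (ball (0 : ℂ) 1 \ {0}) := by
  have h1 : IsPreconnected ((fun s : ℂ => exp (-s)) '' {s : ℂ | 0 < s.re}) :=
    (half_convex 0).isPreconnected.image _ (by fun_prop)
  have h2 : (fun s : ℂ => exp (-s)) '' {s : ℂ | 0 < s.re} = ball (0 : ℂ) 1 \ {0} := by
    ext z
    constructor
    · rintro ⟨s, hs, rfl⟩
      refine ⟨?_, exp_ne_zero _⟩
      rw [mem_ball_zero_iff, Complex.norm_exp, neg_re]
      have hs' : 0 < s.re := hs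
      rw [← Real.exp_zero]
      exact Real.exp_lt_exp.2 (by linarith)
    · rintro ⟨hz, hz0⟩
      have hz0' : z ≠ 0 := hz0
      refine ⟨-log z, ?_, ?_⟩
      · show 0 < (-log z).re
        rw [neg_re, log_re]
        have := Real.log_neg (norm_pos_iff.2 hz0') (mem_ball_zero_iff.1 hz)
        linarith
      · show exp (-(-log z)) = z
        rw [neg_neg, exp_log hz0']
  rwa [h2] at h1

theorem ext_step2 (φ : ℂ → ℂ) (r lam : ℝ) (hr : 1 < r) (hφ : DifferentiableOn ℂ φ (ball 0 r))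
    (hinj : InjOn φ (ball 0 r)) (hlam : 0 < lam) (hBB : BranchesBlowUp φ r lam)
    (A B : ℂ → ℂ) (hA : Differentiable ℂ A) (hB : Differentiable ℂ B)
    (hAB : ∀ z, A z ≠ 0 ∨ B z ≠ 0) (E : Set ℂ) (hE : E.Finite) (h0E : (0 : ℂ) ∈ E)
    (hcov : IsCoveringMapOn (fun z => A z / B z) Eᶜ)
    (hTr : ¬ MeromorphicAt (fun u : ℂ => A u⁻¹ / B u⁻¹) 0) (V : Set ℂ) (hV : IsOpen V)
    (hcl : φ '' closedBall 0 1 ⊆ V) (N : ℕ) (a : ℕ → ℂ → ℂ)
    (ha : ∀ k ≤ N, DifferentiableOn ℂ (a k) (V \ {φ 0}))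
    (hne : ∃ z ∈ φ '' ball 0 1 \ {φ 0}, a N z ≠ 0)
    (hrel : ∀ z ∈ φ '' sphere 0 1,
      ∑ k ∈ Finset.range (N + 1), a k z * conj (A z) ^ k * conj (B z) ^ (N - k) = 0)
    (R : ℝ) (ψ : ℂ → ℂ) (hrR : r ≤ R) (hψ : DifferentiableOn ℂ ψ (ball 0 R))
    (hψφ : EqOn ψ φ (ball 0 r)) (w1 : ℂ) (hw1 : w1 ∈ sphere (0 : ℂ) R) :
    ∃ (ε : ℝ) (F : ℂ → ℂ), 0 < ε ∧ DifferentiableOn ℂ F (ball w1 ε) ∧
      ∀ z ∈ ball w1 ε ∩ ball 0 R, F z = ψ z := by
  have hR1 : 1 < R := by linarith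
  have hR0 : 0 < R := by linarith
  have hw1n : ‖w1‖ = R := by simpa using hw1
  have hw10 : w1 ≠ 0 := by
    rintro rfl
    rw [norm_zero] at hw1n
    linarith
  obtain ⟨P, hP⟩ : ∃ P : ℂ, P = 1 / conj w1 := ⟨_, rfl⟩
  have hinvn : ∀ w : ℂ, ‖1 / conj w‖ = 1 / ‖w‖ := fun w => by
    rw [norm_div, norm_one, RCLike.norm_conj]
  have hPn : ‖P‖ < 1 := by
    rw [hP, hinvn, hw1n, div_lt_one hR0]
    exact hR1
  have hPb : P ∈ ball (0 : ℂ) 1 := mem_ball_zero_iff.2 hPn
  have hPr : P ∈ ball (0 : ℂ) r := mem_ball_zero_iff.2 (hPn.trans hr)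
  obtain ⟨e1, he1⟩ : ∃ e1 : ℂ, e1 = w1 / (R : ℂ) := ⟨_, rfl⟩
  have hRc : (R : ℂ) ≠ 0 := by exact_mod_cast hR0.ne'
  have he1n : ‖e1‖ = 1 := by
    rw [he1, norm_div, hw1n, Complex.norm_real, Real.norm_of_nonneg hR0.le, div_self hR0.ne']
  have hw1e : w1 = (R : ℂ) * e1 := by
    rw [he1]
    field_simp
  have hVo : IsOpen (V \ {φ 0}) := hV.sdiff isClosed_singleton
  have h0r : (0 : ℂ) ∈ ball (0 : ℂ) r := mem_ball_self (by linarith)
  -- (1) the relation
  obtain ⟨δ, hδ, hthick⟩ := (isCompact_closedBall (0 : ℂ) 1).exists_cthickening_subset_open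
    (hφ.continuousOn.isOpen_inter_preimage isOpen_ball hV) (fun v hv =>
      (⟨closedBall_subset_ball hr hv, hcl ⟨v, hv, rfl⟩⟩ : v ∈ ball (0 : ℂ) r ∩ φ ⁻¹' V))
  rw [cthickening_closedBall hδ.le zero_le_one] at hthick
  have hb : ∀ v : ℂ, ‖v‖ < 1 + δ → ‖v‖ < r ∧ φ v ∈ V := by
    intro v hv
    have h1 : v ∈ closedBall (0 : ℂ) (δ + 1) := by
      rw [mem_closedBall_zero_iff]
      linarith
    have h2 := hthick h1
    exact ⟨mem_ball_zero_iff.1 h2.1, h2.2⟩
  obtain ⟨t, ht⟩ : ∃ t : ℝ, t = 1 / (1 + δ) := ⟨_, rfl⟩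
  have ht0 : 0 < t := by rw [ht]; positivity
  have ht1 : t < 1 := by
    rw [ht, div_lt_one (by linarith)]
    linarith
  have htinv : ∀ w : ℂ, t < ‖w‖ → ‖1 / conj w‖ < 1 + δ := by
    intro w hw
    rw [hinvn]
    have : 0 < ‖w‖ := ht0.trans hw
    rw [ht] at hw
    rw [div_lt_iff₀ this]
    rw [div_lt_iff₀ (by linarith)] at hw
    linarith
  obtain ⟨h, hh⟩ : ∃ h : ℕ → ℂ → ℂ, h = fun k w => conj (a k (φ (1 / conj w))) := ⟨_, rfl⟩
  have hAd : ∀ k ≤ N, ∀ w : ℂ, t < ‖w‖ → DifferentiableAt ℂ (h k) w := by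
    intro k hk w hw
    have hw0 : w ≠ 0 := by
      rintro rfl
      rw [norm_zero] at hw
      linarith
    obtain ⟨h1, h2⟩ := hb _ (htinv w hw)
    rw [hh]
    have h4 : φ (1 / conj w) ∈ V \ {φ 0} := by
      refine ⟨h2, fun h5 => ?_⟩
      have h6 := hinj (mem_ball_zero_iff.2 h1) h0r h5
      exact (div_ne_zero one_ne_zero ((map_ne_zero _).2 hw0)) h6
    have h3 : DifferentiableAt ℂ (fun v => a k (φ v)) (1 / conj w) :=
      DifferentiableAt.comp (f := φ) (1 / conj w)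
        ((ha k hk).differentiableAt (hVo.mem_nhds h4))
        (hφ.differentiableAt (isOpen_ball.mem_nhds (mem_ball_zero_iff.2 h1)))
    exact refl_diff (fun v => a k (φ v)) w hw0 h3
  obtain ⟨Q, hQ⟩ : ∃ Q : ℂ → ℂ, Q = fun w => ∑ k ∈ Finset.range (N + 1),
      h k w * A (ψ w) ^ k * B (ψ w) ^ (N - k) := ⟨_, rfl⟩
  have hballn : ∀ (s : ℝ), 0 < s → s < R → ∀ w ∈ ball (((R + s) / 2 : ℝ) * e1 : ℂ) ((R - s) / 2),
      s < ‖w‖ ∧ ‖w‖ < R := by
    intro s hs0 hs w hw
    rw [mem_ball_iff_norm] at hw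
    have hc : ‖(((R + s) / 2 : ℝ) * e1 : ℂ)‖ = (R + s) / 2 := by
      rw [norm_mul, he1n, mul_one, Complex.norm_real, Real.norm_of_nonneg (by linarith)]
    constructor
    · have := norm_sub_norm_le (((R + s) / 2 : ℝ) * e1 : ℂ) w
      rw [norm_sub_rev, hc] at this
      linarith
    · have := norm_sub_norm_le w (((R + s) / 2 : ℝ) * e1 : ℂ)
      rw [hc] at this
      linarith
  have hQd : DifferentiableOn ℂ Q (ball (((R + t) / 2 : ℝ) * e1 : ℂ) ((R - t) / 2)) := by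
    intro w hw
    obtain ⟨h1, h2⟩ := hballn t ht0 (by linarith) w hw
    apply DifferentiableAt.differentiableWithinAt
    rw [hQ]
    refine DifferentiableAt.fun_sum fun k hk => ?_
    have hk' : k ≤ N := Nat.lt_succ_iff.1 (Finset.mem_range.1 hk)
    have hψw : DifferentiableAt ℂ ψ w :=
      hψ.differentiableAt (isOpen_ball.mem_nhds (mem_ball_zero_iff.2 h2))
    have h3 : DifferentiableAt ℂ (fun w => A (ψ w)) w :=
      DifferentiableAt.comp (g := A) (f := ψ) w (hA _) hψw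
    have h4 : DifferentiableAt ℂ (fun w => B (ψ w)) w :=
      DifferentiableAt.comp (g := B) (f := ψ) w (hB _) hψw
    exact ((hAd k hk' w h1).mul (h3.pow k)).mul (h4.pow (N - k))
  have hQc : ∀ w : ℂ, ‖w‖ = 1 → Q w = 0 := by
    intro w hw
    have hw0 : w ≠ 0 := by
      rintro rfl
      rw [norm_zero] at hw
      norm_num at hw
    have h1 : 1 / conj w = w := by
      have h2 : w * conj w = 1 := by
        rw [Complex.mul_conj, Complex.normSq_eq_norm_sq, hw]
        norm_num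
      rw [div_eq_iff ((map_ne_zero _).2 hw0)]
      exact h2.symm
    have h3 := hrel (φ w) ⟨w, mem_sphere_zero_iff_norm.2 hw, rfl⟩
    have h4 : ψ w = φ w := hψφ (mem_ball_zero_iff.2 (by rw [hw]; exact hr))
    rw [hQ, hh]
    simp only [h1, h4]
    have h5 := congrArg conj h3
    rw [map_sum, map_zero] at h5
    rw [← h5]
    refine Finset.sum_congr rfl fun k _ => ?_
    rw [map_mul, map_mul, map_pow, map_pow, Complex.conj_conj, Complex.conj_conj]
  have hQ0 : EqOn Q 0 (ball (((R + t) / 2 : ℝ) * e1 : ℂ) ((R - t) / 2)) := by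
    refine (hQd.analyticOnNhd isOpen_ball).eqOn_zero_of_preconnected_of_frequently_eq_zero
      (convex_ball _ _).isPreconnected (z₀ := e1) ?_ ?_
    · rw [mem_ball_iff_norm]
      have : e1 - (((R + t) / 2 : ℝ) : ℂ) * e1 = ((1 - (R + t) / 2 : ℝ) : ℂ) * e1 := by
        push_cast
        ring
      rw [this, norm_mul, he1n, mul_one, Complex.norm_real, Real.norm_eq_abs, abs_lt]
      constructor <;> linarith
    · exact (circle_acc e1 he1n).mono fun w hw => hQc w hw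
  -- (2) the coefficients at `w1`
  have hhan : ∀ k ≤ N, AnalyticAt ℂ (h k) w1 := by
    intro k hk
    rw [Complex.analyticAt_iff_eventually_differentiableAt]
    have hop : {w : ℂ | t < ‖w‖} ∈ 𝓝 w1 :=
      (isOpen_lt continuous_const continuous_norm).mem_nhds (by
        show t < ‖w1‖
        rw [hw1n]
        linarith)
    filter_upwards [hop] with w hw
    exact hAd k hk w hw
  have hP0 : P ≠ 0 := by
    rw [hP]
    exact div_ne_zero one_ne_zero ((map_ne_zero _).2 hw10)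
  have hhN : ¬ ∀ᶠ w in 𝓝 w1, h N w = 0 := by
    intro hev
    have htend : Tendsto (fun v : ℂ => 1 / conj v) (𝓝 P) (𝓝 w1) := by
      have h1 : ContinuousAt (fun v : ℂ => 1 / conj v) P :=
        continuousAt_const.div Complex.continuous_conj.continuousAt ((map_ne_zero _).2 hP0)
      have h2 : 1 / conj P = w1 := by
        rw [hP, map_div₀, map_one, Complex.conj_conj, one_div_one_div]
      have h3 := h1.tendsto
      rw [h2] at h3
      exact h3
    have h1 : ∀ᶠ v in 𝓝 P, a N (φ v) = 0 := by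
      filter_upwards [htend.eventually hev] with v hv
      rw [hh] at hv
      have e : 1 / conj (1 / conj v) = v := by
        rw [map_div₀, map_one, Complex.conj_conj, one_div_one_div]
      simp only [e] at hv
      exact (map_eq_zero _).1 hv
    have h2 : DifferentiableOn ℂ (fun v => a N (φ v)) (ball 0 1 \ {0}) := by
      refine (ha N le_rfl).comp (hφ.mono (sdiff_subset.trans (ball_subset_ball hr.le)))
        fun v hv => ⟨hcl ⟨v, ball_subset_closedBall hv.1, rfl⟩, fun h5 => ?_⟩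
      exact hv.2 (hinj (ball_subset_ball hr.le hv.1) h0r h5)
    have h3 : EqOn (fun v => a N (φ v)) 0 (ball 0 1 \ {0}) :=
      (h2.analyticOnNhd (isOpen_ball.sdiff isClosed_singleton)).eqOn_zero_of_preconnected_of_eventuallyEq_zero
        punct_pre ⟨hPb, hP0⟩ h1
    obtain ⟨z, ⟨⟨v, hv, rfl⟩, hv0⟩, hz⟩ := hne
    refine hz (h3 ⟨hv, fun h5 => hv0 ?_⟩)
    have h6 : v = 0 := h5
    rw [h6]
    rfl
  -- (3) the inner tangent disc
  obtain ⟨m, κ, hκ, hlow⟩ := low_pow (h N) w1 (hhan N le_rfl) hhN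
  obtain ⟨δ0, hδ0, hδ0b⟩ := Metric.eventually_nhds_iff_ball.1 hlow
  obtain ⟨s, hs1, hsR, hsδ⟩ : ∃ s : ℝ, 1 < s ∧ s < R ∧ R - s < δ0 := by
    refine ⟨max ((R + 1) / 2) (R - δ0 / 2), ?_, max_lt (by linarith) (by linarith), ?_⟩
    · exact lt_of_lt_of_le (by linarith) (le_max_left _ _)
    · have := le_max_right ((R + 1) / 2) (R - δ0 / 2)
      linarith
  obtain ⟨c, hc⟩ : ∃ c : ℂ, c = (((R + s) / 2 : ℝ) : ℂ) * e1 := ⟨_, rfl⟩
  obtain ⟨ρ, hρd⟩ : ∃ ρ : ℝ, ρ = (R - s) / 2 := ⟨_, rfl⟩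
  have hρ : 0 < ρ := by rw [hρd]; linarith
  have hcn : ‖c‖ = (R + s) / 2 := by
    rw [hc, norm_mul, he1n, mul_one, Complex.norm_real, Real.norm_of_nonneg (by linarith)]
  have hcb : ∀ w ∈ ball c ρ, s < ‖w‖ ∧ ‖w‖ < R := by
    intro w hw
    rw [hc, hρd] at hw
    exact hballn s (by linarith) hsR w hw
  have hccb : ∀ w ∈ closedBall c ρ, 1 < ‖w‖ := by
    intro w hw
    rw [mem_closedBall_iff_norm] at hw
    have := norm_sub_norm_le c w
    rw [norm_sub_rev, hcn] at this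
    linarith
  have hcB1 : ball c ρ ⊆ ball (((R + t) / 2 : ℝ) * e1 : ℂ) ((R - t) / 2) := by
    intro w hw
    rw [mem_ball_iff_norm] at hw ⊢
    have h1 : ‖c - (((R + t) / 2 : ℝ) : ℂ) * e1‖ = (s - t) / 2 := by
      have : c - (((R + t) / 2 : ℝ) : ℂ) * e1 = (((s - t) / 2 : ℝ) : ℂ) * e1 := by
        rw [hc]
        push_cast
        ring
      rw [this, norm_mul, he1n, mul_one, Complex.norm_real, Real.norm_of_nonneg (by linarith)]
    have h2 := norm_add_le (w - c) (c - (((R + t) / 2 : ℝ) : ℂ) * e1)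
    rw [sub_add_sub_cancel, h1] at h2
    linarith
  have hw1s : w1 ∈ sphere c ρ := by
    rw [mem_sphere_iff_norm]
    have : w1 - c = (((R - s) / 2 : ℝ) : ℂ) * e1 := by
      rw [hc, hw1e]
      push_cast
      ring
    rw [this, norm_mul, he1n, mul_one, Complex.norm_real, Real.norm_of_nonneg (by linarith), hρd]
  have hψc : DifferentiableOn ℂ ψ (ball c ρ) := hψ.mono fun w hw =>
    mem_ball_zero_iff.2 (hcb w hw).2
  have hcne : ∀ w ∈ ball c ρ, w ≠ w1 := by
    rintro w hw rfl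
    have := (hcb w hw).2
    linarith
  have hBne : ∀ w ∈ ball c ρ, B (ψ w) ≠ 0 := by
    intro w hw hB0
    have h1 : w ∈ ball w1 δ0 := by
      rw [mem_ball_iff_norm] at hw ⊢
      have h2 : ‖w1 - c‖ = ρ := mem_sphere_iff_norm.1 hw1s
      have h3 := norm_add_le (w - c) (c - w1)
      rw [sub_add_sub_cancel, norm_sub_rev c w1, h2] at h3
      linarith
    have h2 := hδ0b w h1
    have h3 : 0 < ‖w - w1‖ := norm_pos_iff.2 (sub_ne_zero.2 (hcne w hw))
    have h4 : h N w ≠ 0 := by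
      intro h5
      rw [h5, norm_zero] at h2
      have : 0 < κ * ‖w - w1‖ ^ m := by positivity
      linarith
    have h5 := hQ0 (hcB1 hw)
    rw [hQ] at h5
    simp only [Pi.zero_apply] at h5
    rw [Finset.sum_range_succ, Finset.sum_eq_zero, zero_add, Nat.sub_self, pow_zero, mul_one] at h5
    · rcases mul_eq_zero.1 h5 with h6 | h6
      · exact h4 h6
      · rcases hAB (ψ w) with h7 | h7
        · exact h7 (eq_zero_of_pow_eq_zero h6)
        · exact h7 hB0
    · intro k hk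
      have := Finset.mem_range.1 hk
      rw [hB0, zero_pow (by omega), mul_zero]
  have hclos : w1 ∈ closure (ball c ρ) := by
    rw [closure_ball c hρ.ne']
    exact sphere_subset_closedBall hw1s
  have hGan : ∀ x, A x / B x ∉ E → AnalyticAt ℂ (fun z => A z / B z) x := by
    intro x hx
    have h1 : B x ≠ 0 := by
      intro h2
      rw [h2, div_zero] at hx
      exact hx h0E
    exact (hA.analyticAt x).div (hB.analyticAt x) h1
  have hT : ¬ ∃ (K C : ℝ) (m : ℕ), ∀ z : ℂ, K < ‖z‖ → A z / B z ∉ E ∧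
      ‖A z / B z‖ ≤ C * ‖z‖ ^ m := by
    rintro ⟨K, C, m, hK⟩
    refine hTr (mero_of_growth A B hA hB ⟨K, C, m, fun z hz => ?_⟩)
    obtain ⟨h1, h2⟩ := hK z hz
    refine ⟨fun h3 => ?_, h2⟩
    rw [h3, div_zero] at h1
    exact h1 h0E
  -- (4) slow growth
  obtain ⟨ρ', hρ', hρρ, hsm⟩ := local_small (fun z => A z / B z) E hE hcov hGan hT c ρ hρ w1 hw1s
    ψ hψc (fun w hw => (hA.analyticAt _).div (hB.analyticAt _) (hBne w hw))
    (fun a0 δ1 hδ1 => by
      by_contra hcon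
      push Not at hcon
      obtain ⟨z, hz1, hz2⟩ := Metric.mem_closure_iff.1 hclos δ1 hδ1
      have hzw : z ∈ ball w1 δ1 := by rw [mem_ball, dist_comm]; exact hz2
      have h1 : DifferentiableOn ℂ (fun w => A (ψ w) - a0 * B (ψ w)) (ball 0 R) := by
        intro w hw
        have hψw := hψ.differentiableAt (isOpen_ball.mem_nhds hw)
        exact ((DifferentiableAt.comp (g := A) (f := ψ) w (hA _) hψw).sub
          ((DifferentiableAt.comp (g := B) (f := ψ) w (hB _) hψw).const_mul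
            a0)).differentiableWithinAt
      have hzR : z ∈ ball (0 : ℂ) R := mem_ball_zero_iff.2 (hcb z hz1).2
      have h2 : EqOn (fun w => A (ψ w) - a0 * B (ψ w)) 0 (ball 0 R) := by
        refine (h1.analyticOnNhd isOpen_ball).eqOn_zero_of_preconnected_of_eventuallyEq_zero
          (convex_ball _ _).isPreconnected hzR ?_
        filter_upwards [(isOpen_ball.inter isOpen_ball).mem_nhds
          (⟨hz1, hzw⟩ : z ∈ ball c ρ ∩ ball w1 δ1)] with w hw
        have h3 := hcon w hw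
        rw [div_eq_iff (hBne w hw.1)] at h3
        show A (ψ w) - a0 * B (ψ w) = 0
        rw [h3, sub_self]
      refine not_const A B hA hB hAB hTr a0 φ r (by linarith) hφ hinj fun v hv => ?_
      have h3 := h2 (ball_subset_ball hrR hv)
      simp only [hψφ hv, Pi.zero_apply] at h3
      exact h3) N h hhan hhN
    (by
      filter_upwards with w hw
      have h5 := hQ0 (hcB1 hw)
      rw [hQ] at h5
      simp only [Pi.zero_apply] at h5
      have hBw := hBne w hw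
      have h6 : B (ψ w) ^ N * HH N h w (A (ψ w) / B (ψ w)) = 0 := by
        rw [← h5]
        unfold HH
        rw [Finset.mul_sum]
        refine Finset.sum_congr rfl fun k hk => ?_
        have hk' : k ≤ N := Nat.lt_succ_iff.1 (Finset.mem_range.1 hk)
        rw [div_pow]
        have h7 : B (ψ w) ^ N = B (ψ w) ^ (N - k) * B (ψ w) ^ k := by
          rw [← pow_add]
          congr 1
          omega
        rw [h7]
        have h8 : B (ψ w) ^ k ≠ 0 := pow_ne_zero _ hBw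
        field_simp
      rcases mul_eq_zero.1 h6 with h7 | h7
      · exact absurd h7 (pow_ne_zero _ hBw)
      · exact h7)
  obtain ⟨hg1, hg0, hg2, hg3⟩ := disc_geom c w1 ρ ρ' hρ hρ' hρρ hw1s
  obtain ⟨c', hc'⟩ : ∃ c' : ℂ, c' = w1 + ((ρ' / ρ : ℝ) : ℂ) * (c - w1) := ⟨_, rfl⟩
  rw [← hc'] at hg1 hg0 hg2 hg3 hsm
  have hclos' : w1 ∈ closure (ball c' ρ') := by
    rw [closure_ball c' hρ'.ne']
    exact sphere_subset_closedBall hg1
  have hmain : ∃ (ε : ℝ) (F : ℂ → ℂ), 0 < ε ∧ DifferentiableOn ℂ F (ball w1 ε) ∧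
      ∀ w ∈ ball w1 ε ∩ ball c' ρ', F w = ψ w := by
    obtain ⟨L, hL⟩ : ∃ L : ℝ, L = lam * ‖deriv φ P‖ := ⟨_, rfl⟩
    have hL0 : 0 ≤ L := by rw [hL]; positivity
    obtain ⟨η1, hη1, hη1L⟩ : ∃ η1 : ℝ, 0 < η1 ∧ L * η1 < 3 * ‖w1‖ ^ 2 := by
      refine ⟨3 * R ^ 2 / (L + 1), by positivity, ?_⟩
      rw [hw1n, ← mul_div_assoc, div_lt_iff₀ (by linarith)]
      nlinarith [sq_nonneg R, pow_pos hR0 2]
    obtain ⟨δ4, hδ4, hδ4b⟩ := hsm η1 hη1
    exact hBB c' ρ' ψ w1 η1 δ4 hρ' (fun w hw => hccb w (hg0 hw)) (hψc.mono hg2)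
      (by
        obtain ⟨z, hz, -⟩ := Metric.mem_closure_iff.1 hclos' 1 one_pos
        exact ⟨z, hz, branch_radial φ ψ r R hr hrR hψ hψφ z
          (hccb z (ball_subset_closedBall (hg2 hz))) (hcb z (hg2 hz)).2⟩) hg1 hδ4 (by
        rw [← hP, ← hL]
        exact hη1L) hδ4b
  -- (5) the identity theorem
  obtain ⟨ε, F, hε, hF, hFψ⟩ := hmain
  refine ⟨ε, F, hε, hF, ?_⟩
  have hcv : Convex ℝ (ball w1 ε ∩ ball 0 R) := (convex_ball w1 ε).inter (convex_ball 0 R)
  have hop : IsOpen (ball w1 ε ∩ ball 0 R) := isOpen_ball.inter isOpen_ball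
  obtain ⟨z, hz1, hz2⟩ := Metric.mem_closure_iff.1 hclos' ε hε
  have hzw : z ∈ ball w1 ε := by rw [mem_ball, dist_comm]; exact hz2
  refine AnalyticOnNhd.eqOn_of_preconnected_of_eventuallyEq (z₀ := z)
    ((hF.mono inter_subset_left).analyticOnNhd hop)
    ((hψ.mono inter_subset_right).analyticOnNhd hop) hcv.isPreconnected
    ⟨hzw, mem_ball_zero_iff.2 (hcb z (hg2 hz1)).2⟩ ?_
  filter_upwards [(isOpen_ball.inter isOpen_ball).mem_nhds (⟨hzw, hz1⟩ : z ∈ ball w1 ε ∩ ball c' ρ')]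
    with w hw
  exact hFψ w hw

end Pool.Agent.P8H66.CS
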