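import Pool.Agent.H792R2.SS.KB

/-!
Growth of injective holomorphic functions in a half-plane which omit a value.
-/

set_option autoImplicit false

open Complex Metric Set Filter Topology

namespace Pool.Agent.P8H66.CS

/-- Koebe's quarter theorem -/
theorem koebe (F : ℂ → ℂ) (s ω : ℂ) (d : ℝ) (hd : 0 < d) (hF : DifferentiableOn ℂ F (ball s d))
    (hi : InjOn F (ball s d)) (hω : ∀ z ∈ ball s d, F z ≠ ω) :
    d * ‖deriv F s‖ ≤ 4 * ‖F s - ω‖ := by
  have hs : s ∈ ball s d := mem_ball_self hd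
  obtain ⟨h1, h2⟩ := Pool.Agent.H792R2.SS.t_KB F s d hd hF hi
  have hsub : ∀ z ∈ ball s d, F z - ω ≠ 0 := fun z hz => sub_ne_zero.2 (hω z hz)
  obtain ⟨h, hh⟩ : ∃ h : ℂ → ℂ, h = fun z => (F z - ω)⁻¹ := ⟨_, rfl⟩
  have hhd : DifferentiableOn ℂ h (ball s d) := by
    rw [hh]
    exact (hF.sub_const ω).inv hsub
  have hhi : InjOn h (ball s d) := by
    intro z hz z' hz' e
    rw [hh] at e
    have e2 : F z - ω = F z' - ω := inv_injective e
    exact hi hz hz' (sub_left_injective e2)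
  obtain ⟨h3, h4⟩ := Pool.Agent.H792R2.SS.t_KB h s d hd hhd hhi
  have hdF : ∀ z ∈ ball s d, HasDerivAt F (deriv F z) z := fun z hz =>
    (hF.differentiableAt (isOpen_ball.mem_nhds hz)).hasDerivAt
  have hder : ∀ z ∈ ball s d, deriv h z = -deriv F z / (F z - ω) ^ 2 := by
    intro z hz
    rw [hh]
    exact (((hdF z hz).sub_const ω).inv (hsub z hz)).deriv
  have hdF2 : HasDerivAt (deriv F) (deriv (deriv F) s) s :=
    ((hF.deriv isOpen_ball).differentiableAt (isOpen_ball.mem_nhds hs)).hasDerivAt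
  have hder2 : deriv (deriv h) s =
      (-deriv (deriv F) s * (F s - ω) ^ 2 - (-deriv F s) * (2 * (F s - ω) * deriv F s)) /
        ((F s - ω) ^ 2) ^ 2 := by
    have hev : deriv h =ᶠ[𝓝 s] fun z => -deriv F z / (F z - ω) ^ 2 := by
      filter_upwards [isOpen_ball.mem_nhds hs] with z hz using hder z hz
    rw [hev.deriv_eq]
    have e1 : HasDerivAt (fun z => (F z - ω) ^ 2) (2 * (F s - ω) * deriv F s) s := by
      have := ((hdF s hs).sub_const ω).fun_pow 2
      simpa using this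
    exact (hdF2.neg.div e1 (pow_ne_zero 2 (hsub s hs))).deriv
  obtain ⟨y, hy⟩ : ∃ y : ℂ, y = F s - ω := ⟨_, rfl⟩
  obtain ⟨D1, hD1⟩ : ∃ D1 : ℂ, D1 = deriv F s := ⟨_, rfl⟩
  obtain ⟨D2, hD2⟩ : ∃ D2 : ℂ, D2 = deriv (deriv F) s := ⟨_, rfl⟩
  rw [hder s hs, hder2, ← hy, ← hD1, ← hD2] at h4
  rw [← hD1, ← hD2] at h2
  rw [← hy, ← hD1]
  have hy0 : y ≠ 0 := by rw [hy]; exact hsub s hs
  have hyp : 0 < ‖y‖ := norm_pos_iff.2 hy0
  have e1 : (-D2 * y ^ 2 - -D1 * (2 * y * D1)) / (y ^ 2) ^ 2 = (2 * D1 ^ 2 - D2 * y) / y ^ 3 := by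
    field_simp
    ring
  rw [e1, norm_div, norm_div, norm_neg, norm_pow, norm_pow] at h4
  have e2 : d * (‖2 * D1 ^ 2 - D2 * y‖ / ‖y‖ ^ 3) * ‖y‖ ^ 3 ≤ 4 * (‖D1‖ / ‖y‖ ^ 2) * ‖y‖ ^ 3 :=
    mul_le_mul_of_nonneg_right h4 (by positivity)
  have e3 : d * (‖2 * D1 ^ 2 - D2 * y‖ / ‖y‖ ^ 3) * ‖y‖ ^ 3 = d * ‖2 * D1 ^ 2 - D2 * y‖ := by
    field_simp
  have e4 : 4 * (‖D1‖ / ‖y‖ ^ 2) * ‖y‖ ^ 3 = 4 * ‖D1‖ * ‖y‖ := by
    field_simp
  rw [e3, e4] at e2
  have e5 : 2 * ‖D1‖ ^ 2 ≤ ‖2 * D1 ^ 2 - D2 * y‖ + ‖D2‖ * ‖y‖ := by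
    have e6 := norm_add_le (2 * D1 ^ 2 - D2 * y) (D2 * y)
    rw [sub_add_cancel, norm_mul, norm_mul, norm_pow] at e6
    simpa using e6
  have e7 : d * (2 * ‖D1‖ ^ 2) ≤ 8 * ‖D1‖ * ‖y‖ := by
    have := mul_le_mul_of_nonneg_left e5 hd.le
    have e8 : d * ‖D2‖ * ‖y‖ ≤ 4 * ‖D1‖ * ‖y‖ := mul_le_mul_of_nonneg_right h2 hyp.le
    nlinarith
  have hD10 : 0 < ‖D1‖ := by
    rw [hD1]
    exact norm_pos_iff.2 h1
  have e9 : ‖D1‖ * (d * ‖D1‖) ≤ ‖D1‖ * (4 * ‖y‖) := by nlinarith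
  exact le_of_mul_le_mul_left e9 hD10

/-- the derivative of a function whose exponential is injective -/
theorem log_deriv_bound (F : ℂ → ℂ) (s : ℂ) (d : ℝ) (hd : 0 < d)
    (hF : DifferentiableOn ℂ F (ball s d)) (hi : InjOn (fun z => exp (F z)) (ball s d)) :
    d * ‖deriv F s‖ ≤ 4 * Real.pi := by
  have hiF : InjOn F (ball s d) := fun z hz z' hz' e => hi hz hz' (by simp only [e])
  have key : (∀ z ∈ ball s d, F z ≠ F s + Real.pi * I) ∨
      (∀ z ∈ ball s d, F z ≠ F s - Real.pi * I) := by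
    by_contra hcon
    push Not at hcon
    obtain ⟨⟨z, hz, e⟩, z', hz', e'⟩ := hcon
    have h1 : exp (F z) = exp (F z') := by
      rw [e, e', exp_eq_exp_iff_exists_int]
      exact ⟨1, by push_cast; ring⟩
    have h2 := hi hz hz' h1
    rw [h2, e'] at e
    have h3 : (Real.pi : ℂ) * I = 0 := by linear_combination -e / 2
    rcases mul_eq_zero.1 h3 with h4 | h4
    · exact Real.pi_ne_zero (by exact_mod_cast h4)
    · exact I_ne_zero h4
  rcases key with h | h
  · have := koebe F s _ d hd hF hiF h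
    rw [show F s - (F s + Real.pi * I) = -(Real.pi * I) by ring, norm_neg, norm_mul, norm_I,
      mul_one, Complex.norm_real, Real.norm_of_nonneg Real.pi_pos.le] at this
    exact this
  · have := koebe F s _ d hd hF hiF h
    rw [show F s - (F s - Real.pi * I) = Real.pi * I by ring, norm_mul, norm_I,
      mul_one, Complex.norm_real, Real.norm_of_nonneg Real.pi_pos.le] at this
    exact this

theorem half_convex (s0 : ℝ) : Convex ℝ {s : ℂ | s0 < s.re} := convex_halfSpace_re_gt s0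

theorem convex_sc (U : Set ℂ) (hc : Convex ℝ U) (hne : U.Nonempty) : IsSimplyConnected U := by
  have := hc.contractibleSpace hne
  exact (inferInstance : SimplyConnectedSpace U)

theorem half_open (s0 : ℝ) : IsOpen {s : ℂ | s0 < s.re} := isOpen_lt continuous_const continuous_re

/-- a logarithm on an open convex set -/
theorem exists_log (U : Set ℂ) (hU : IsOpen U) (hc : Convex ℝ U) (hne : U.Nonempty) (g : ℂ → ℂ)
    (hg : DifferentiableOn ℂ g U) (h0 : ∀ z ∈ U, g z ≠ 0) :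
    ∃ F : ℂ → ℂ, DifferentiableOn ℂ F U ∧ ∀ z ∈ U, exp (F z) = g z := by
  obtain ⟨F, hF, hFe⟩ := Complex.exists_continuousOn_eqOn_exp_comp (convex_sc U hc hne) hU
    hg.continuousOn (by rintro ⟨z, hz, e⟩; exact h0 z hz e)
  refine ⟨F, fun z hz => ?_, hFe⟩
  have h1 : ContinuousAt F z := hF.continuousAt (hU.mem_nhds hz)
  have h2 : DifferentiableAt ℂ g z := hg.differentiableAt (hU.mem_nhds hz)
  have hstr : HasStrictDerivAt exp (exp (F z)) (F z) := hasStrictDerivAt_exp (F z)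
  have h3 := hstr.to_localInverse (exp_ne_zero _)
  obtain ⟨L, hL⟩ : ∃ L : ℂ → ℂ, L = hstr.localInverse _ _ _ (exp_ne_zero _) := ⟨_, rfl⟩
  have h4 : ∀ᶠ x in 𝓝 (F z), L (exp x) = x := by
    rw [hL]
    exact (hstr.hasStrictFDerivAt_equiv (exp_ne_zero _)).eventually_left_inverse
  have h5 : ∀ᶠ w in 𝓝 z, F w = L (g w) := by
    filter_upwards [h1.eventually h4, hU.mem_nhds hz] with w hw hwU
    rw [← hFe hwU]
    exact hw.symm
  have h6 : DifferentiableAt ℂ (fun w => L (g w)) z := by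
    refine DifferentiableAt.comp (g := L) (f := g) z ?_ h2
    rw [← hFe hz]
    have := h3.hasDerivAt.differentiableAt
    rw [← hL] at this
    exact this
  exact (h6.congr_of_eventuallyEq h5).differentiableWithinAt

/-- an injective holomorphic function in a half-plane which omits a value has polynomial growth,
also near the vertical directions -/
theorem half_growth (s0 : ℝ) (Ψ : ℂ → ℂ) (a0 : ℂ) (hΨ : DifferentiableOn ℂ Ψ {s | s0 < s.re})
    (hi : InjOn Ψ {s | s0 < s.re}) (h0 : ∀ s : ℂ, s0 < s.re → Ψ s ≠ a0) :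
    ∃ (C : ℝ) (n : ℕ), 0 < C ∧ ∀ s : ℂ, s0 + 1 ≤ s.re → ‖Ψ s‖ ≤ C * (1 + ‖s‖) ^ n := by
  have hne : {s : ℂ | s0 < s.re}.Nonempty := ⟨((s0 + 1 : ℝ) : ℂ), by simp⟩
  obtain ⟨F, hF, hFe⟩ := exists_log _ (half_open s0) (half_convex s0) hne (fun z => Ψ z - a0)
    (hΨ.sub_const a0) (fun z hz => sub_ne_zero.2 (h0 z hz))
  have hFd : ∀ s : ℂ, s0 < s.re → HasDerivAt F (deriv F s) s := fun s hs =>
    (hF.differentiableAt ((half_open s0).mem_nhds hs)).hasDerivAt
  have hb : ∀ s : ℂ, s0 < s.re → (s.re - s0) * ‖deriv F s‖ ≤ 4 * Real.pi := by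
    intro s hs
    have hsub : ball s (s.re - s0) ⊆ {s : ℂ | s0 < s.re} := by
      intro z hz
      rw [mem_ball_iff_norm] at hz
      have h1 := (abs_le.1 (abs_re_le_norm (z - s))).1
      rw [sub_re] at h1
      show s0 < z.re
      linarith
    refine log_deriv_bound F s _ (by linarith) (hF.mono hsub) ?_
    intro z hz z' hz' e
    simp only at e
    rw [hFe z (hsub hz), hFe z' (hsub hz')] at e
    exact hi (hsub hz) (hsub hz') (sub_left_injective e)
  have hpi := Real.pi_pos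
  have hre0 : ∀ q y : ℝ, ((q : ℂ) + y * I).re = q := by
    intro q y
    simp
  have hhor : ∀ y x1 x2 : ℝ, 0 < x1 → x1 ≤ x2 →
      ‖F ((s0 + x2 : ℝ) + y * I) - F ((s0 + x1 : ℝ) + y * I)‖ ≤
        4 * Real.pi * (Real.log x2 - Real.log x1) := by
    intro y x1 x2 hx1 hx2
    have h1 := norm_image_sub_le_of_norm_deriv_le_segment' (a := Real.log x1) (b := Real.log x2)
      (f := fun t : ℝ => F ((s0 + Real.exp t : ℝ) + y * I))
      (f' := fun t : ℝ => deriv F ((s0 + Real.exp t : ℝ) + y * I) * (Real.exp t : ℝ))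
      (C := 4 * Real.pi) (fun t _ => by
        have hre : (((s0 + Real.exp t : ℝ) : ℂ) + y * I).re = s0 + Real.exp t :=
          hre0 (s0 + Real.exp t) y
        have h2 : HasDerivAt (fun t : ℝ => ((s0 + Real.exp t : ℝ) : ℂ) + y * I)
            ((Real.exp t : ℝ) : ℂ) t := by
          have h3 : HasDerivAt (fun t : ℝ => s0 + Real.exp t) (Real.exp t) t :=
            (Real.hasDerivAt_exp t).const_add s0
          exact h3.ofReal_comp.add_const _
        have h4 := hFd (((s0 + Real.exp t : ℝ) : ℂ) + y * I) (by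
          rw [hre]
          linarith [Real.exp_pos t])
        exact (HasDerivAt.comp t h4 h2).hasDerivWithinAt) (fun t _ => by
        have hre : (((s0 + Real.exp t : ℝ) : ℂ) + y * I).re = s0 + Real.exp t :=
          hre0 (s0 + Real.exp t) y
        have h4 := hb (((s0 + Real.exp t : ℝ) : ℂ) + y * I) (by
          rw [hre]
          linarith [Real.exp_pos t])
        rw [hre, add_sub_cancel_left] at h4
        rw [norm_mul, Complex.norm_real, Real.norm_of_nonneg (Real.exp_pos t).le, mul_comm]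
        exact h4) (Real.log x2) ⟨Real.log_le_log hx1 hx2, le_refl _⟩
    simp only [Real.exp_log hx1, Real.exp_log (hx1.trans_le hx2)] at h1
    exact h1
  have hver : ∀ X y : ℝ, 0 < X →
      ‖F ((s0 + X : ℝ) + y * I) - F ((s0 + X : ℝ) + (0 : ℝ) * I)‖ ≤ 4 * Real.pi / X * |y| := by
    intro X y hX
    have h1 := Convex.norm_image_sub_le_of_norm_deriv_le (f := F) (C := 4 * Real.pi / X)
      (s := {z : ℂ | s0 + X ≤ z.re}) (x := ((s0 + X : ℝ) : ℂ) + (0 : ℝ) * I)
      (y := ((s0 + X : ℝ) : ℂ) + y * I) (fun z hz => (hFd z (by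
        have : s0 + X ≤ z.re := hz
        linarith)).differentiableAt) (fun z hz => by
        have h2 : s0 + X ≤ z.re := hz
        have h3 := hb z (by linarith)
        rw [le_div_iff₀ hX]
        have h4 : X * ‖deriv F z‖ ≤ (z.re - s0) * ‖deriv F z‖ :=
          mul_le_mul_of_nonneg_right (by linarith) (norm_nonneg _)
        linarith) (convex_halfSpace_re_ge (s0 + X)) (by simp) (by simp)
    refine h1.trans (le_of_eq ?_)
    congr 1
    rw [add_sub_add_left_eq_sub, ← sub_mul, norm_mul, norm_I, mul_one, ← ofReal_sub,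
      Complex.norm_real, sub_zero, Real.norm_eq_abs]
  obtain ⟨K, hK⟩ : ∃ K : ℝ, K = ‖F ((s0 + 1 : ℝ) + (0 : ℝ) * I)‖ := ⟨_, rfl⟩
  have hmain : ∀ s : ℂ, s0 + 1 ≤ s.re →
      ‖Ψ s - a0‖ ≤ Real.exp (K + 4 * Real.pi) * (1 + |s0| + ‖s‖) ^ 26 := by
    intro s hs
    obtain ⟨X, hX⟩ : ∃ X : ℝ, X = 1 + |s0| + ‖s‖ := ⟨_, rfl⟩
    rw [← hX]
    have hX1 : 1 ≤ X := by
      rw [hX]
      have := abs_nonneg s0
      have := norm_nonneg s
      linarith
    have hXx : s.re - s0 ≤ X := by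
      rw [hX]
      have h1 := (abs_le.1 (abs_re_le_norm s)).2
      have h2 := neg_abs_le s0
      linarith
    have hXy : |s.im| ≤ X := by
      rw [hX]
      have h1 := abs_im_le_norm s
      have := abs_nonneg s0
      linarith
    have e1 : (((s0 + (s.re - s0) : ℝ) : ℂ) + s.im * I) = s := by
      rw [add_sub_cancel]
      exact re_add_im s
    have h1 := hhor s.im (s.re - s0) X (by linarith) hXx
    rw [e1] at h1
    have h2 := hver X s.im (by linarith)
    have h3 := hhor 0 1 X one_pos hX1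
    rw [Real.log_one, sub_zero] at h3
    have h4 : 0 ≤ Real.log (s.re - s0) := Real.log_nonneg (by linarith)
    have h5 : 4 * Real.pi / X * |s.im| ≤ 4 * Real.pi := by
      rw [div_mul_eq_mul_div, div_le_iff₀ (by linarith)]
      exact mul_le_mul_of_nonneg_left hXy (by linarith)
    have h6 : ‖F s‖ ≤ K + 8 * Real.pi * Real.log X + 4 * Real.pi := by
      have e2 : F s = -(F ((s0 + X : ℝ) + s.im * I) - F s) +
          (F ((s0 + X : ℝ) + s.im * I) - F ((s0 + X : ℝ) + (0 : ℝ) * I)) +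
          (F ((s0 + X : ℝ) + (0 : ℝ) * I) - F ((s0 + 1 : ℝ) + (0 : ℝ) * I)) +
          F ((s0 + 1 : ℝ) + (0 : ℝ) * I) := by ring
      have h7 : 4 * Real.pi * (Real.log X - Real.log (s.re - s0)) ≤
          4 * Real.pi * Real.log X := by
        apply mul_le_mul_of_nonneg_left _ (by linarith)
        linarith
      rw [e2]
      refine (norm_add_le _ _).trans ?_
      refine (add_le_add_left ((norm_add_le _ _).trans
        (add_le_add_left (norm_add_le _ _) _)) _).trans ?_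
      rw [norm_neg, hK]
      linarith
    have h8 : ‖Ψ s - a0‖ = Real.exp (F s).re := by
      rw [← hFe s (show s0 < s.re by linarith), Complex.norm_exp]
    rw [h8]
    have h9 : (F s).re ≤ (K + 4 * Real.pi) + 26 * Real.log X := by
      have h10 := re_le_norm (F s)
      have h11 : 8 * Real.pi ≤ 26 := by
        have := Real.pi_lt_d2
        linarith
      have h12 : 8 * Real.pi * Real.log X ≤ 26 * Real.log X :=
        mul_le_mul_of_nonneg_right h11 (Real.log_nonneg hX1)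
      linarith
    refine (Real.exp_le_exp.2 h9).trans (le_of_eq ?_)
    rw [Real.exp_add]
    congr 1
    have : (26 : ℝ) * Real.log X = ((26 : ℕ) : ℝ) * Real.log X := by norm_num
    rw [this, Real.exp_nat_mul, Real.exp_log (by linarith)]
  refine ⟨‖a0‖ + Real.exp (K + 4 * Real.pi) * (1 + |s0|) ^ 26, 26, by positivity, fun s hs => ?_⟩
  have h1 := hmain s hs
  have h2 : ‖Ψ s‖ ≤ ‖Ψ s - a0‖ + ‖a0‖ := by
    have := norm_add_le (Ψ s - a0) a0
    rwa [sub_add_cancel] at this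
  have h3 : 1 + |s0| + ‖s‖ ≤ (1 + |s0|) * (1 + ‖s‖) := by
    have := mul_nonneg (abs_nonneg s0) (norm_nonneg s)
    nlinarith
  have h4 : (1 + |s0| + ‖s‖) ^ 26 ≤ (1 + |s0|) ^ 26 * (1 + ‖s‖) ^ 26 := by
    rw [← mul_pow]
    exact pow_le_pow_left₀ (by positivity) h3 26
  have h5 : (1 : ℝ) ≤ (1 + ‖s‖) ^ 26 := one_le_pow₀ (by linarith [norm_nonneg s])
  have h6 : ‖a0‖ ≤ ‖a0‖ * (1 + ‖s‖) ^ 26 := le_mul_of_one_le_right (norm_nonneg _) h5
  have h7 := mul_le_mul_of_nonneg_left h4 (Real.exp_pos (K + 4 * Real.pi)).le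
  calc ‖Ψ s‖ ≤ ‖Ψ s - a0‖ + ‖a0‖ := h2
    _ ≤ Real.exp (K + 4 * Real.pi) * ((1 + |s0|) ^ 26 * (1 + ‖s‖) ^ 26) +
        ‖a0‖ * (1 + ‖s‖) ^ 26 := by linarith
    _ = (‖a0‖ + Real.exp (K + 4 * Real.pi) * (1 + |s0|) ^ 26) * (1 + ‖s‖) ^ 26 := by ring

end Pool.Agent.P8H66.CS
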