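import Mathlib

/-!
Periodic holomorphic functions in a half-plane which stay away from a value.
-/

set_option autoImplicit false

open Complex Metric Set Filter Topology Function.Periodic

namespace Pool.Agent.P8H66.CS

theorem periodic_case (s0 : ℝ) (Ψ : ℂ → ℂ) (k : ℕ) (hk : 0 < k) (z0 : ℂ) (ε : ℝ) (hε : 0 < ε)
    (hΨ : DifferentiableOn ℂ Ψ {s | s0 < s.re})
    (hper : ∀ s : ℂ, s0 < s.re → Ψ (s + (2 * Real.pi * k : ℝ) * I) = Ψ s)
    (hfar : ∀ s : ℂ, s0 < s.re → ε ≤ ‖Ψ s - z0‖) :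
    (∃ C : ℝ, ∀ s : ℂ, s0 + 1 ≤ s.re → ‖Ψ s‖ ≤ C) ∨
    (∃ K C : ℝ, 0 < C ∧ ∀ z : ℂ, K < ‖z‖ → ∃ s : ℂ, s0 < s.re ∧ Ψ s = z ∧
      Real.exp s.re ≤ (C * ‖z - z0‖) ^ k) := by
  have hkR : (0 : ℝ) < k := by exact_mod_cast hk
  have hpi := Real.pi_pos
  obtain ⟨h, hh⟩ : ∃ h : ℝ, h = 2 * Real.pi * k := ⟨_, rfl⟩
  have hh0 : 0 < h := by rw [hh]; positivity
  rw [← hh] at hper
  obtain ⟨f, hf⟩ : ∃ f : ℂ → ℂ, f = fun τ => if s0 < τ.im then (Ψ (-I * τ) - z0)⁻¹ else 0 :=
    ⟨_, rfl⟩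
  have hre : ∀ τ : ℂ, (-I * τ).re = τ.im := by
    intro τ
    simp
  have hff : ∀ τ : ℂ, s0 < τ.im → f τ = (Ψ (-I * τ) - z0)⁻¹ := fun τ hτ => by
    rw [hf]
    exact if_pos hτ
  have hfper : Function.Periodic f h := by
    intro τ
    have him : (τ + (h : ℂ)).im = τ.im := by simp
    rw [hf]
    simp only [him]
    split_ifs with hτ
    · have h1 := hper (-I * (τ + h)) (by rw [hre, him]; exact hτ)
      have e : -I * (τ + h) + (h : ℂ) * I = -I * τ := by ring
      rw [e] at h1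
      rw [h1]
    · rfl
  have hsubne : ∀ s : ℂ, s0 < s.re → Ψ s - z0 ≠ 0 := by
    intro s hs h0
    have := hfar s hs
    rw [h0, norm_zero] at this
    linarith
  have hfd : ∀ τ : ℂ, s0 < τ.im → DifferentiableAt ℂ f τ := by
    intro τ hτ
    have h1 : DifferentiableAt ℂ Ψ (-I * τ) :=
      hΨ.differentiableAt ((isOpen_lt continuous_const continuous_re).mem_nhds (by
        show s0 < (-I * τ).re
        rw [hre]; exact hτ))
    have h2 : DifferentiableAt ℂ (fun τ : ℂ => (Ψ (-I * τ) - z0)⁻¹) τ := by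
      refine DifferentiableAt.inv ?_ (hsubne _ (by rw [hre]; exact hτ))
      refine DifferentiableAt.sub_const ?_ _
      exact DifferentiableAt.comp (g := Ψ) (f := fun τ : ℂ => -I * τ) τ h1 (by fun_prop)
    refine h2.congr_of_eventuallyEq ?_
    filter_upwards [(isOpen_lt continuous_const continuous_im).mem_nhds hτ] with v hv
    exact hff v hv
  have hcom : ∀ᶠ τ in comap im atTop, s0 < τ.im :=
    tendsto_comap.eventually (eventually_gt_atTop s0)
  have hbd : BoundedAtFilter (comap im atTop) f := by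
    rw [BoundedAtFilter]
    refine Asymptotics.IsBigO.of_bound (1 / ε) ?_
    filter_upwards [hcom] with τ hτ
    rw [hff τ hτ, norm_inv, Pi.one_apply, norm_one, mul_one, one_div]
    exact inv_anti₀ hε (hfar _ (by rw [hre]; exact hτ))
  obtain ⟨η, hη⟩ : ∃ η : ℂ → ℂ, η = cuspFunction h f := ⟨_, rfl⟩
  have hη0 : DifferentiableAt ℂ η 0 := by
    rw [hη]
    exact differentiableAt_cuspFunction_zero hh0 hfper (hcom.mono hfd) hbd
  have himq : ∀ q : ℂ, q ≠ 0 → ‖q‖ < Real.exp (-s0 / k) → s0 < (invQParam h q).im := by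
    intro q hq hq1
    rw [im_invQParam, hh]
    have h1 : Real.log ‖q‖ < -s0 / k := (Real.log_lt_iff_lt_exp (norm_pos_iff.2 hq)).2 hq1
    rw [lt_div_iff₀ hkR] at h1
    have e : -(2 * Real.pi * k) / (2 * Real.pi) * Real.log ‖q‖ = -(Real.log ‖q‖ * k) := by
      field_simp
    rw [e]
    linarith
  have hηd : ∀ q : ℂ, ‖q‖ < Real.exp (-s0 / k) → DifferentiableAt ℂ η q := by
    intro q hq
    rcases eq_or_ne q 0 with h0 | h0
    · rw [h0]
      exact hη0
    · rw [hη, ← qParam_right_inv hh0.ne' h0]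
      exact differentiableAt_cuspFunction hh0.ne' hfper (hfd _ (himq q h0 hq))
  have hηv : ∀ q : ℂ, q ≠ 0 → η q = f (invQParam h q) := by
    intro q hq
    rw [hη]
    exact cuspFunction_eq_of_nonzero h f hq
  have hηne : ∀ q : ℂ, q ≠ 0 → ‖q‖ < Real.exp (-s0 / k) → η q ≠ 0 := by
    intro q h0 hq
    rw [hηv q h0, hff _ (himq q h0 hq)]
    exact inv_ne_zero (hsubne _ (by rw [hre]; exact himq q h0 hq))
  have hηs : ∀ s : ℂ, s0 < s.re → η (qParam h (I * s)) = (Ψ s - z0)⁻¹ := by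
    intro s hs
    have him : (I * s).im = s.re := by simp
    rw [hη, eq_cuspFunction hh0.ne' hfper, hff _ (by rw [him]; exact hs)]
    have e : -I * (I * s) = s := by
      rw [← mul_assoc, neg_mul, I_mul_I, neg_neg, one_mul]
    rw [e]
  by_cases hz : η 0 = 0
  · right
    obtain ⟨C, hC⟩ := hη0.isBigO_sub.bound
    have han : AnalyticAt ℂ η 0 := by
      rw [Complex.analyticAt_iff_eventually_differentiableAt]
      filter_upwards [ball_mem_nhds (0 : ℂ) (Real.exp_pos (-s0 / k))] with q hq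
      exact hηd q (mem_ball_zero_iff.1 hq)
    have hop : 𝓝 (η 0) ≤ map η (𝓝 0) := by
      rcases han.eventually_constant_or_nhds_le_map_nhds with h1 | h1
      · exfalso
        have h2 : ∀ᶠ q in 𝓝[≠] (0 : ℂ), η q = η 0 := h1.filter_mono nhdsWithin_le_nhds
        have h3 : ∀ᶠ q in 𝓝[≠] (0 : ℂ), ‖q‖ < Real.exp (-s0 / k) := by
          apply Filter.Eventually.filter_mono nhdsWithin_le_nhds
          filter_upwards [ball_mem_nhds (0 : ℂ) (Real.exp_pos (-s0 / k))] with q hq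
          exact mem_ball_zero_iff.1 hq
        obtain ⟨q, hq1, hq2, hq3⟩ := (h2.and (h3.and self_mem_nhdsWithin)).exists
        exact hηne q hq3 hq2 (hq1.trans hz)
      · exact h1
    have hU : {q : ℂ | ‖q‖ < Real.exp (-s0 / k) ∧ ‖η q‖ ≤ (|C| + 1) * ‖q‖} ∈ 𝓝 (0 : ℂ) := by
      filter_upwards [ball_mem_nhds (0 : ℂ) (Real.exp_pos (-s0 / k)), hC] with q hq1 hq2
      refine ⟨mem_ball_zero_iff.1 hq1, ?_⟩
      rw [hz, sub_zero, sub_zero] at hq2
      refine hq2.trans (mul_le_mul_of_nonneg_right ?_ (norm_nonneg _))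
      linarith [le_abs_self C]
    have hV : η '' {q : ℂ | ‖q‖ < Real.exp (-s0 / k) ∧ ‖η q‖ ≤ (|C| + 1) * ‖q‖} ∈ 𝓝 (0 : ℂ) := by
      rw [← hz]
      exact hop (image_mem_map hU)
    obtain ⟨r', hr', hr's⟩ := Metric.mem_nhds_iff.1 hV
    refine ⟨‖z0‖ + 1 / r', |C| + 1, by positivity, fun z hzK => ?_⟩
    have h1 : 1 / r' < ‖z - z0‖ := by
      have := norm_sub_norm_le z z0
      linarith
    have h1p : 0 < ‖z - z0‖ := lt_trans (by positivity) h1
    have h2 : (z - z0)⁻¹ ∈ ball (0 : ℂ) r' := by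
      rw [mem_ball_zero_iff, norm_inv, inv_lt_comm₀ h1p hr']
      rw [one_div] at h1
      exact h1
    obtain ⟨q, ⟨hq1, hq2⟩, hq3⟩ := hr's h2
    have hz0 : z - z0 ≠ 0 := norm_pos_iff.1 h1p
    have hq0 : q ≠ 0 := by
      rintro rfl
      rw [hz] at hq3
      exact inv_ne_zero hz0 hq3.symm
    have him := himq q hq0 hq1
    refine ⟨-I * invQParam h q, by rw [hre]; exact him, ?_, ?_⟩
    · rw [hηv q hq0, hff _ him] at hq3
      exact sub_left_injective (inv_injective hq3)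
    · rw [hre, im_invQParam, hh]
      have hqp : 0 < ‖q‖ := norm_pos_iff.2 hq0
      have e : -(2 * Real.pi * k) / (2 * Real.pi) * Real.log ‖q‖ = (k : ℝ) * -(Real.log ‖q‖) := by
        field_simp
      rw [e, Real.exp_nat_mul, Real.exp_neg, Real.exp_log hqp]
      apply pow_le_pow_left₀ (by positivity)
      rw [hq3, norm_inv] at hq2
      rw [inv_le_iff_one_le_mul₀ hqp]
      have h3 := mul_le_mul_of_nonneg_right hq2 h1p.le
      rw [inv_mul_cancel₀ h1p.ne'] at h3
      linarith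
  · left
    have hq1 : Real.exp (-(s0 + 1) / k) < Real.exp (-s0 / k) := by
      apply Real.exp_lt_exp.2
      rw [div_lt_div_iff_of_pos_right hkR]
      linarith
    obtain ⟨q, hqmem, hqm⟩ := (isCompact_closedBall (0 : ℂ) (Real.exp (-(s0 + 1) / k))).exists_isMinOn
      ⟨0, mem_closedBall_self (Real.exp_pos _).le⟩
      (f := fun q => ‖η q‖) (fun q hq => by
        have : ‖q‖ ≤ Real.exp (-(s0 + 1) / k) := mem_closedBall_zero_iff.1 hq
        exact (hηd q (this.trans_lt hq1)).continuousAt.norm.continuousWithinAt)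
    have hqb : ‖q‖ ≤ Real.exp (-(s0 + 1) / k) := mem_closedBall_zero_iff.1 hqmem
    · have hm : 0 < ‖η q‖ := by
        rcases eq_or_ne q 0 with h0 | h0
        · rw [h0]
          exact norm_pos_iff.2 hz
        · exact norm_pos_iff.2 (hηne q h0 (hqb.trans_lt hq1))
      refine ⟨1 / ‖η q‖ + ‖z0‖, fun s hs => ?_⟩
      have hs' : s0 < s.re := by linarith
      have h1 : qParam h (I * s) ∈ closedBall (0 : ℂ) (Real.exp (-(s0 + 1) / k)) := by
        rw [mem_closedBall_zero_iff, norm_qParam]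
        apply Real.exp_le_exp.2
        have him : (I * s).im = s.re := by simp
        rw [him, hh]
        have e : -2 * Real.pi * s.re / (2 * Real.pi * k) = -s.re / k := by
          field_simp
        rw [e, div_le_div_iff_of_pos_right hkR]
        linarith
      have h2 : ‖η q‖ ≤ ‖η (qParam h (I * s))‖ := hqm h1
      rw [hηs s hs', norm_inv] at h2
      have hp : 0 < ‖Ψ s - z0‖ := norm_pos_iff.2 (hsubne s hs')
      have h3 : ‖Ψ s - z0‖ ≤ 1 / ‖η q‖ := by
        rw [one_div]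
        exact (le_inv_comm₀ hm hp).1 h2
      have h4 := norm_add_le (Ψ s - z0) z0
      rw [sub_add_cancel] at h4
      linarith

end Pool.Agent.P8H66.CS
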