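import Pool.Agent.P8H66.CS.Half
import Pool.Agent.P8H66.CS.Per

/-!
Lifts through functions which are coverings over the complement of a set, and their growth.
-/

set_option autoImplicit false

open Complex Metric Set Filter Topology

namespace Pool.Agent.P8H66.CS

theorem lift_exists (G : ℂ → ℂ) (E : Set ℂ) (hcov : IsCoveringMapOn G Eᶜ) (U : Set ℂ)
    (hU : IsOpen U) (hc : Convex ℝ U) (f : ℂ → ℂ) (hf : ContinuousOn f U)
    (hfE : ∀ z ∈ U, f z ∉ E) (s1 z1 : ℂ) (hs1 : s1 ∈ U) (h1 : G z1 = f s1) :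
    ∃ Ψ : ℂ → ℂ, ContinuousOn Ψ U ∧ (∀ z ∈ U, G (Ψ z) = f z) ∧ Ψ s1 = z1 := by
  classical
  have := (convex_sc U hc ⟨s1, hs1⟩).simplyConnectedSpace
  have := hU.locallyPathConnectedSpace
  rcases hcov.existsUnique_continuousMap_lifts
    ⟨U.domRestrict f, continuousOn_iff_continuous_domRestrict.mp hf⟩ (a₀ := ⟨s1, hs1⟩) (e₀ := z1)
    h1 (fun x => hfE x x.2) with ⟨F, ⟨hF0, hF⟩, -⟩
  obtain ⟨g, hg⟩ : ∃ g : ℂ → ℂ, ∀ z : U, g z = F z :=
    ⟨fun z ↦ if hz : z ∈ U then F ⟨z, hz⟩ else 0, by simp⟩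
  refine ⟨g, ?_, ?_, ?_⟩
  · rw [continuousOn_iff_continuous_domRestrict]
    convert! map_continuous F
    ext z
    exact hg z
  · intro x hx
    lift x to U using hx
    rw [hg]
    exact congrFun hF x
  · have := hg ⟨s1, hs1⟩
    rw [← hF0]
    exact this

theorem lift_unique (G : ℂ → ℂ) (E : Set ℂ) (hcov : IsCoveringMapOn G Eᶜ) (U : Set ℂ)
    (hU : IsOpen U) (hc : Convex ℝ U) (f : ℂ → ℂ) (hf : ContinuousOn f U)
    (hfE : ∀ z ∈ U, f z ∉ E) (Ψ1 Ψ2 : ℂ → ℂ) (h1 : ContinuousOn Ψ1 U) (h2 : ContinuousOn Ψ2 U)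
    (hG1 : ∀ z ∈ U, G (Ψ1 z) = f z) (hG2 : ∀ z ∈ U, G (Ψ2 z) = f z) (s1 : ℂ) (hs1 : s1 ∈ U)
    (he : Ψ1 s1 = Ψ2 s1) : EqOn Ψ1 Ψ2 U := by
  have := (convex_sc U hc ⟨s1, hs1⟩).simplyConnectedSpace
  have := hU.locallyPathConnectedSpace
  have hex := hcov.existsUnique_continuousMap_lifts
    ⟨U.domRestrict f, continuousOn_iff_continuous_domRestrict.mp hf⟩ (a₀ := ⟨s1, hs1⟩)
    (e₀ := Ψ1 s1) (hG1 s1 hs1) (fun x => hfE x x.2)
  have h3 := hex.unique (y₁ := ⟨U.domRestrict Ψ1, continuousOn_iff_continuous_domRestrict.mp h1⟩)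
    (y₂ := ⟨U.domRestrict Ψ2, continuousOn_iff_continuous_domRestrict.mp h2⟩)
    ⟨rfl, funext fun x => hG1 x x.2⟩ ⟨he.symm, funext fun x => hG2 x x.2⟩
  intro x hx
  have h4 := congrArg (fun F : C(U, ℂ) => F ⟨x, hx⟩) h3
  exact h4

theorem lift_diff (G : ℂ → ℂ) (E : Set ℂ) (hcov : IsCoveringMapOn G Eᶜ)
    (hGan : ∀ x, G x ∉ E → AnalyticAt ℂ G x) (U : Set ℂ) (hU : IsOpen U) (f : ℂ → ℂ)
    (hf : DifferentiableOn ℂ f U) (hfE : ∀ z ∈ U, f z ∉ E) (Ψ : ℂ → ℂ) (h1 : ContinuousOn Ψ U)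
    (hG1 : ∀ z ∈ U, G (Ψ z) = f z) : DifferentiableOn ℂ Ψ U := by
  intro z hz
  have hzE : G (Ψ z) ∉ E := by rw [hG1 z hz]; exact hfE z hz
  have hc : ContinuousAt Ψ z := h1.continuousAt (hU.mem_nhds hz)
  have hfz : DifferentiableAt ℂ f z := hf.differentiableAt (hU.mem_nhds hz)
  obtain ⟨e, he, hGe⟩ := hcov.isLocalHomeomorphOn (Ψ z) hzE
  obtain ⟨ρ, hρ, hρa⟩ := Metric.eventually_nhds_iff_ball.1
    ((hGan (Ψ z) hzE).eventually_analyticAt.and (e.open_source.mem_nhds he))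
  have hd : deriv G (Ψ z) ≠ 0 := by
    refine Pool.Agent.Helper405.Conv.deriv_ne_zero_of_injOn (isOpen_ball (x := Ψ z) (ε := ρ))
      (fun x hx => (hρa x hx).1.differentiableAt.differentiableWithinAt) ?_ (mem_ball_self hρ)
    intro x hx y hy hxy
    rw [hGe] at hxy
    exact e.injOn (hρa x hx).2 (hρa y hy).2 hxy
  have hstr : HasStrictDerivAt G (deriv G (Ψ z)) (Ψ z) := (hGan (Ψ z) hzE).hasStrictDerivAt
  have h3 := hstr.to_localInverse hd
  obtain ⟨L, hL⟩ : ∃ L : ℂ → ℂ, L = hstr.localInverse _ _ _ hd := ⟨_, rfl⟩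
  have h4 : ∀ᶠ x in 𝓝 (Ψ z), L (G x) = x := by
    rw [hL]
    exact (hstr.hasStrictFDerivAt_equiv hd).eventually_left_inverse
  have h5 : ∀ᶠ w in 𝓝 z, Ψ w = L (f w) := by
    filter_upwards [hc.eventually h4, hU.mem_nhds hz] with w hw hwU
    rw [← hG1 w hwU]
    exact hw.symm
  have h6 : DifferentiableAt ℂ (fun w => L (f w)) z := by
    refine DifferentiableAt.comp (g := L) (f := f) z ?_ hfz
    rw [← hG1 z hz]
    have := h3.hasDerivAt.differentiableAt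
    rw [← hL] at this
    exact this
  exact (h6.congr_of_eventuallyEq h5).differentiableWithinAt

/-- lifts of the logarithmic coordinate at a puncture have polynomial growth -/
theorem tract (G : ℂ → ℂ) (E : Set ℂ) (hcov : IsCoveringMapOn G Eᶜ)
    (hT : ¬ ∃ (K C : ℝ) (m : ℕ), ∀ z : ℂ, K < ‖z‖ → G z ∉ E ∧ ‖G z‖ ≤ C * ‖z‖ ^ m)
    (s0 : ℝ) (f : ℂ → ℂ) (hf : DifferentiableOn ℂ f {s | s0 < s.re})
    (hfE : ∀ s : ℂ, s0 < s.re → f s ∉ E)
    (hfk : ∀ s s' : ℂ, s0 < s.re → s0 < s'.re → f s = f s' →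
      ∃ k : ℤ, s' = s + (2 * Real.pi * k : ℝ) * I)
    (hfp : ∀ (s : ℂ) (k : ℤ), s0 < s.re → f (s + (2 * Real.pi * k : ℝ) * I) = f s)
    (hfg : ∃ C : ℝ, ∀ s : ℂ, s0 < s.re → ‖f s‖ ≤ C * Real.exp s.re)
    (hfar : ∃ (z0 : ℂ) (X0 δ : ℝ), 0 < δ ∧ ContinuousAt G z0 ∧
      ∀ s : ℂ, X0 < s.re → δ ≤ ‖f s - G z0‖) :
    ∃ X1 : ℝ, s0 ≤ X1 ∧ ∀ Ψ : ℂ → ℂ, DifferentiableOn ℂ Ψ {s | s0 < s.re} →
      (∀ s : ℂ, s0 < s.re → G (Ψ s) = f s) →
      ∃ (C : ℝ) (n : ℕ), 0 < C ∧ ∀ s : ℂ, X1 ≤ s.re → ‖Ψ s‖ ≤ C * (1 + ‖s‖) ^ n := by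
  obtain ⟨z0, X0, δ, hδ, hcz, hX0⟩ := hfar
  obtain ⟨X, hXs, hXX⟩ : ∃ X : ℝ, s0 ≤ X ∧ X0 ≤ X := ⟨max s0 X0, le_max_left _ _, le_max_right _ _⟩
  refine ⟨X + 1, by linarith, fun Ψ hΨ hGΨ => ?_⟩
  obtain ⟨ε, hε, hεb⟩ := Metric.continuousAt_iff.1 hcz δ hδ
  have hfar : ∀ s : ℂ, X < s.re → ε ≤ ‖Ψ s - z0‖ := by
    intro s hs
    by_contra hlt
    push Not at hlt
    have h1 := hεb (by rw [dist_eq_norm]; exact hlt : dist (Ψ s) z0 < ε)
    rw [hGΨ s (by linarith), dist_eq_norm] at h1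
    have h2 := hX0 s (by linarith)
    linarith
  have hsub : {s : ℂ | X < s.re} ⊆ {s : ℂ | s0 < s.re} := fun s hs => lt_of_le_of_lt hXs hs
  have hΨX : DifferentiableOn ℂ Ψ {s | X < s.re} := hΨ.mono hsub
  by_cases hinj : InjOn Ψ {s : ℂ | X < s.re}
  · exact half_growth X Ψ z0 hΨX hinj (fun s hs h0 => by
      have := hfar s hs
      rw [h0, sub_self, norm_zero] at this
      linarith)
  · -- a period
    have hex : ∃ (s : ℂ) (k : ℕ), 0 < k ∧ X < s.re ∧ Ψ (s + (2 * Real.pi * k : ℝ) * I) = Ψ s := by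
      rw [InjOn] at hinj
      push Not at hinj
      obtain ⟨s, hs, s', hs', hss, hne⟩ := hinj
      have hs1 : s0 < s.re := hsub hs
      have hs1' : s0 < s'.re := hsub hs'
      have h1 : f s = f s' := by rw [← hGΨ s hs1, ← hGΨ s' hs1', hss]
      obtain ⟨k, hk⟩ := hfk s s' hs1 hs1' h1
      rcases lt_trichotomy k 0 with hk0 | hk0 | hk0
      · obtain ⟨m, hm⟩ := Int.eq_ofNat_of_zero_le (show 0 ≤ -k by omega)
        refine ⟨s', m, by omega, hs', ?_⟩
        have e : s' + (2 * Real.pi * m : ℝ) * I = s := by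
          rw [hk]
          have : (k : ℝ) = -(m : ℝ) := by
            have : k = -(m : ℤ) := by omega
            rw [this]
            push_cast
            ring
          rw [this]
          push_cast
          ring
        rw [e, hss]
      · exfalso
        apply hne
        rw [hk, hk0]
        simp
      · obtain ⟨m, hm⟩ := Int.eq_ofNat_of_zero_le hk0.le
        refine ⟨s, m, by omega, hs, ?_⟩
        have e : s + (2 * Real.pi * m : ℝ) * I = s' := by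
          rw [hk, hm]
          push_cast
          ring
        rw [e, hss]
    obtain ⟨s1, k, hk, hs1, hs1k⟩ := hex
    have hreT : ∀ s : ℂ, (s + (2 * Real.pi * k : ℝ) * I).re = s.re := by
      intro s
      rw [add_re, mul_re, ofReal_re, ofReal_im, I_re, I_im]
      ring
    have hper : ∀ s : ℂ, X < s.re → Ψ (s + (2 * Real.pi * k : ℝ) * I) = Ψ s := by
      have h1 := lift_unique G E hcov {s | X < s.re} (half_open X) (half_convex X) f
        ((hf.mono hsub).continuousOn) (fun z hz => hfE z (hsub hz))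
        (fun s => Ψ (s + (2 * Real.pi * k : ℝ) * I)) Ψ
        (by
          refine ContinuousOn.comp hΨX.continuousOn (by fun_prop) ?_
          intro s hs
          show X < (s + (2 * Real.pi * k : ℝ) * I).re
          rw [hreT]
          exact hs) hΨX.continuousOn
        (fun z hz => by
          have hz1 : s0 < z.re := hsub hz
          show G (Ψ (z + (2 * Real.pi * k : ℝ) * I)) = f z
          rw [hGΨ _ (by rw [hreT]; exact hz1)]
          have := hfp z k hz1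
          push_cast at this ⊢
          exact this) (fun z hz => hGΨ z (hsub hz)) s1 hs1 hs1k
      exact fun s hs => h1 hs
    rcases periodic_case X Ψ k hk z0 ε hε hΨX hper hfar with ⟨C, hC⟩ | ⟨K, C, hC0, hC⟩
    · refine ⟨|C| + 1, 0, by positivity, fun s hs => ?_⟩
      rw [pow_zero, mul_one]
      have := hC s hs
      linarith [le_abs_self C]
    · exfalso
      apply hT
      obtain ⟨C', hC'⟩ := hfg
      refine ⟨max K (max 1 ‖z0‖), |C'| * (C * 2) ^ k, k, fun z hz => ?_⟩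
      obtain ⟨s, hs, hsz, hse⟩ := hC z (lt_of_le_of_lt (le_max_left _ _) hz)
      have hs' : s0 < s.re := by linarith
      have hGz : G z = f s := by rw [← hsz]; exact hGΨ s hs'
      refine ⟨by rw [hGz]; exact hfE s hs', ?_⟩
      have hz0 : ‖z0‖ < ‖z‖ :=
        lt_of_le_of_lt ((le_max_right _ _).trans (le_max_right _ _)) hz
      have h1 : ‖z - z0‖ ≤ 2 * ‖z‖ := by
        have := norm_sub_le z z0
        linarith
      rw [hGz]
      calc ‖f s‖ ≤ C' * Real.exp s.re := hC' s hs'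
        _ ≤ |C'| * (C * ‖z - z0‖) ^ k := by
            refine (mul_le_mul_of_nonneg_right (le_abs_self C') (Real.exp_pos _).le).trans ?_
            exact mul_le_mul_of_nonneg_left hse (abs_nonneg _)
        _ ≤ |C'| * (C * (2 * ‖z‖)) ^ k := by
            refine mul_le_mul_of_nonneg_left ?_ (abs_nonneg _)
            exact pow_le_pow_left₀ (by positivity) (mul_le_mul_of_nonneg_left h1 hC0.le) k
        _ = |C'| * (C * 2) ^ k * ‖z‖ ^ k := by
            rw [← mul_assoc C 2, mul_pow (C * 2)]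
            ring

end Pool.Agent.P8H66.CS
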