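import Pool.Agent.P8H66.CS.Ext
import Pool.Agent.P8H66.CS.Disc
import Pool.Agent.P8H66.CS.Expo

/-!
Schiffer's problem for domains on the boundary of which the conjugate of a transcendental function
with finitely many singular values is algebroid.
-/

set_option autoImplicit false

open MeasureTheory Complex Metric Set Filter Topology ComplexConjugate
open Pool.Agent.Results.MP_83fd13_an.BranchSingularities (Solvable Branch BranchesBlowUp)
open Pool.Agent.P8H73.SF (mob entire_of)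

namespace Pool.Agent.P8H66.CS

theorem main0 (φ : ℂ → ℂ) (r lam : ℝ) (hr : 1 < r) (hφ : DifferentiableOn ℂ φ (ball 0 r))
    (hinj : InjOn φ (ball 0 r)) (hlam : 0 < lam) (hS : Solvable (φ '' ball 0 1) lam)
    (A B : ℂ → ℂ) (hA : Differentiable ℂ A) (hB : Differentiable ℂ B)
    (hAB : ∀ z, A z ≠ 0 ∨ B z ≠ 0) (E : Set ℂ) (hE : E.Finite) (h0E : (0 : ℂ) ∈ E)
    (hcov : IsCoveringMapOn (fun z => A z / B z) Eᶜ)
    (hTr : ¬ MeromorphicAt (fun u : ℂ => A u⁻¹ / B u⁻¹) 0) (V : Set ℂ) (hV : IsOpen V)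
    (hcl : φ '' closedBall 0 1 ⊆ V) (N : ℕ) (a : ℕ → ℂ → ℂ)
    (ha : ∀ k ≤ N, DifferentiableOn ℂ (a k) (V \ {φ 0}))
    (hne : ∃ z ∈ φ '' ball 0 1 \ {φ 0}, a N z ≠ 0)
    (hrel : ∀ z ∈ φ '' sphere 0 1,
      ∑ k ∈ Finset.range (N + 1), a k z * conj (A z) ^ k * conj (B z) ^ (N - k) = 0) :
    ∃ (p : ℂ) (r0 : ℝ), 0 < r0 ∧ φ '' ball 0 1 = ball p r0 := by
  by_contra hnd
  obtain ⟨hBB, -, -⟩ := Pool.Agent.Results.MP_83fd13_an.BranchSingularities.result φ r hr hφ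
    hinj lam hlam hS
  obtain ⟨ψ, hψ, hψφ⟩ := entire_of φ r (by linarith) hφ (by
    intro R ψ hrR hψ hψφ w1 hw1
    exact ext_step2 φ r lam hr hφ hinj hlam hBB A B hA hB hAB E hE h0E hcov hTr V hV hcl N a ha
      hne hrel R ψ hrR hψ hψφ w1 hw1)
  have himψ : ψ '' ball 0 1 = φ '' ball 0 1 :=
    image_congr fun x hx => hψφ (ball_subset_ball hr.le hx)
  obtain ⟨-, -, h4⟩ := Pool.Agent.Results.MP_83fd13_an.BranchSingularities.result ψ r hr
    hψ.differentiableOn (hinj.congr hψφ.symm) lam hlam (by rw [himψ]; exact hS)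
  rw [himψ] at h4
  exact (h4 hnd).2.2 fun z => (hψ.analyticAt z).meromorphicAt

theorem mainA (φ : ℂ → ℂ) (r lam : ℝ) (hr : 1 < r) (hφ : DifferentiableOn ℂ φ (ball 0 r))
    (hinj : InjOn φ (ball 0 r)) (hlam : 0 < lam) (hS : Solvable (φ '' ball 0 1) lam)
    (A B : ℂ → ℂ) (hA : Differentiable ℂ A) (hB : Differentiable ℂ B)
    (hAB : ∀ z, A z ≠ 0 ∨ B z ≠ 0) (E : Set ℂ) (hE : E.Finite) (h0E : (0 : ℂ) ∈ E)
    (hcov : IsCoveringMapOn (fun z => A z / B z) Eᶜ)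
    (hTr : ¬ MeromorphicAt (fun u : ℂ => A u⁻¹ / B u⁻¹) 0) (V : Set ℂ) (hV : IsOpen V)
    (hcl : φ '' closedBall 0 1 ⊆ V) (z0 : ℂ) (hz0 : z0 ∈ φ '' ball 0 1) (N : ℕ) (a : ℕ → ℂ → ℂ)
    (ha : ∀ k ≤ N, DifferentiableOn ℂ (a k) (V \ {z0}))
    (hne : ∃ z ∈ φ '' ball 0 1 \ {z0}, a N z ≠ 0)
    (hrel : ∀ z ∈ φ '' sphere 0 1,
      ∑ k ∈ Finset.range (N + 1), a k z * conj (A z) ^ k * conj (B z) ^ (N - k) = 0) :
    ∃ (p : ℂ) (r0 : ℝ), 0 < r0 ∧ φ '' ball 0 1 = ball p r0 := by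
  obtain ⟨u, hu, hu0⟩ := hz0
  obtain ⟨φ1, r1, hr1, hφ1, hinj1, him, hims, h0⟩ :=
    mob φ r hr hφ hinj u (mem_ball_zero_iff.1 hu)
  have himc : φ1 '' closedBall 0 1 = φ '' closedBall 0 1 := by
    rw [← ball_union_sphere, image_union, image_union, him, hims]
  rw [← him] at hS hne ⊢
  rw [← hims] at hrel
  rw [← himc] at hcl
  rw [← hu0, ← h0] at ha hne
  exact main0 φ1 r1 lam hr1 hφ1 hinj1 hlam hS A B hA hB hAB E hE h0E hcov hTr V hV hcl N a ha hne
    hrel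

theorem mainB (φ : ℂ → ℂ) (r lam : ℝ) (hr : 1 < r) (hφ : DifferentiableOn ℂ φ (ball 0 r))
    (hinj : InjOn φ (ball 0 r)) (hlam : 0 < lam) (hS : Solvable (φ '' ball 0 1) lam)
    (A B : ℂ → ℂ) (hA : Differentiable ℂ A) (hB : Differentiable ℂ B)
    (hAB : ∀ z, A z ≠ 0 ∨ B z ≠ 0) (E : Set ℂ) (hE : E.Finite) (h0E : (0 : ℂ) ∈ E)
    (hcov : IsCoveringMapOn (fun z => A z / B z) Eᶜ)
    (hTr : ¬ MeromorphicAt (fun u : ℂ => A u⁻¹ / B u⁻¹) 0) (V : Set ℂ) (hV : IsOpen V)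
    (hcl : φ '' closedBall 0 1 ⊆ V) (N : ℕ) (a : ℕ → ℂ → ℂ)
    (ha : ∀ k ≤ N, DifferentiableOn ℂ (a k) V) (hne : ∃ z ∈ φ '' ball 0 1, a N z ≠ 0)
    (hrel : ∀ z ∈ φ '' sphere 0 1,
      ∑ k ∈ Finset.range (N + 1), a k z * conj (A z) ^ k * conj (B z) ^ (N - k) = 0) : False := by
  have hcont : ContinuousOn φ (closedBall 0 1) :=
    (hφ.continuousOn).mono (closedBall_subset_ball hr)
  -- a point of `Ω` different from a given one
  have hne' : ∃ z0 ∈ φ '' ball 0 1, ∃ z ∈ φ '' ball 0 1 \ {z0}, a N z ≠ 0 := by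
    obtain ⟨z, hz, hz0⟩ := hne
    have h0 : φ 0 ∈ φ '' ball 0 1 := ⟨0, mem_ball_self one_pos, rfl⟩
    have h1 : φ (1 / 2) ∈ φ '' ball 0 1 := by
      refine ⟨1 / 2, ?_, rfl⟩
      rw [mem_ball_zero_iff]
      norm_num
    by_cases h : z = φ 0
    · refine ⟨φ (1 / 2), h1, z, ⟨hz, fun h2 => ?_⟩, hz0⟩
      have h3 : φ 0 = φ (1 / 2) := h ▸ h2
      have h4 := hinj (mem_ball_self (by linarith)) (by
        rw [mem_ball_zero_iff]
        norm_num
        linarith) h3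
      norm_num at h4
    · exact ⟨φ 0, h0, z, ⟨hz, h⟩, hz0⟩
  obtain ⟨z0, hz0, hne0⟩ := hne'
  obtain ⟨p, r0, hr0, him⟩ := mainA φ r lam hr hφ hinj hlam hS A B hA hB hAB E hE h0E hcov hTr V hV
    hcl z0 hz0 N a (fun k hk => (ha k hk).mono sdiff_subset) hne0 hrel
  have hcomp : IsCompact (φ '' closedBall 0 1) :=
    (isCompact_closedBall (0 : ℂ) 1).image_of_continuousOn hcont
  have hclb : closedBall p r0 ⊆ φ '' closedBall 0 1 := by
    rw [← closure_ball p hr0.ne', ← him]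
    exact closure_minimal (image_mono ball_subset_closedBall) hcomp.isClosed
  refine no_disc A B hA hB hAB hTr p r0 hr0 V hV (hclb.trans hcl) N a ha (by rw [← him]; exact hne)
    fun z hz => hrel z ?_
  obtain ⟨v, hv, rfl⟩ := hclb (sphere_subset_closedBall hz)
  refine ⟨v, ?_, rfl⟩
  have hv1 : ‖v‖ ≤ 1 := mem_closedBall_zero_iff.1 hv
  rcases hv1.lt_or_eq with h1 | h1
  · exfalso
    have h2 : φ v ∈ φ '' ball 0 1 := ⟨v, mem_ball_zero_iff.2 h1, rfl⟩
    rw [him] at h2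
    have h3 := mem_ball_iff_norm.1 h2
    have h4 := mem_sphere_iff_norm.1 hz
    linarith
  · exact mem_sphere_zero_iff_norm.2 h1

/-- real algebraic curves in the exponential -/
theorem mainC (φ : ℂ → ℂ) (r lam : ℝ) (hr : 1 < r) (hφ : DifferentiableOn ℂ φ (ball 0 r))
    (hinj : InjOn φ (ball 0 r)) (hlam : 0 < lam) (hS : Solvable (φ '' ball 0 1) lam)
    (α : ℂ) (hα : α ≠ 0) (d : ℕ) (c : ℕ → ℕ → ℂ) (hc : ∃ j ≤ d, ∃ k ≤ d, c j k ≠ 0)
    (hrel : ∀ z ∈ φ '' sphere 0 1, ∑ j ∈ Finset.range (d + 1), ∑ k ∈ Finset.range (d + 1),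
      c j k * exp (α * z) ^ j * conj (exp (α * z)) ^ k = 0) : False := by
  classical
  obtain ⟨j0, hj0, k0, hk0, hjk⟩ := hc
  obtain ⟨N, hNd, ⟨j1, hj1d, hj1⟩, hNmax⟩ : ∃ N : ℕ, N ≤ d ∧ (∃ j ≤ d, c j N ≠ 0) ∧
      ∀ k, N < k → k ≤ d → ∀ j ≤ d, c j k = 0 := by
    refine ⟨Nat.findGreatest (fun k => ∃ j ≤ d, c j k ≠ 0) d, Nat.findGreatest_le d, ?_, ?_⟩
    · exact Nat.findGreatest_spec (P := fun k => ∃ j ≤ d, c j k ≠ 0) hk0 ⟨j0, hj0, hjk⟩
    · intro k hk hkd j hj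
      by_contra hne
      exact Nat.findGreatest_is_greatest hk hkd ⟨j, hj, hne⟩
  obtain ⟨q, hq⟩ : ∃ q : ℕ → Polynomial ℂ,
      q = fun k => ∑ j ∈ Finset.range (d + 1), Polynomial.C (c j k) * Polynomial.X ^ j := ⟨_, rfl⟩
  have hqN : q N ≠ 0 := by
    intro h0
    apply hj1
    have h1 := congrArg (fun p : Polynomial ℂ => p.coeff j1) h0
    rw [hq] at h1
    simp only [Polynomial.finsetSum_coeff, Polynomial.coeff_C_mul, Polynomial.coeff_X_pow,
      mul_ite, mul_one, mul_zero, Polynomial.coeff_zero] at h1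
    rw [Finset.sum_ite_eq (Finset.range (d + 1)) j1,
      if_pos (Finset.mem_range.2 (Nat.lt_succ_of_le hj1d))] at h1
    exact h1
  have hqe : ∀ k z, (q k).eval z = ∑ j ∈ Finset.range (d + 1), c j k * z ^ j := by
    intro k z
    rw [hq]
    simp [Polynomial.eval_finsetSum]
  have h0 : (0 : ℂ) ∈ ball (0 : ℂ) r := mem_ball_self (by linarith)
  refine mainB φ r lam hr hφ hinj hlam hS (fun z => exp (α * z)) (fun _ => 1) (by fun_prop)
    (by fun_prop) (fun z => Or.inl (exp_ne_zero _)) {0} (finite_singleton _) (mem_singleton _)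
    (exp_cov α hα) (exp_transc α hα) univ isOpen_univ (subset_univ _) N
    (fun k z => (q k).eval (exp (α * z))) (fun k _ => ?_) ?_ ?_
  · exact ((q k).differentiable.comp (by fun_prop : Differentiable ℂ fun z : ℂ =>
      exp (α * z))).differentiableOn
  · -- not identically zero
    by_contra hcon
    push Not at hcon
    have h1 : ∀ z : ℂ, (q N).eval (exp (α * z)) = 0 := by
      have hd : Differentiable ℂ (fun z : ℂ => (q N).eval (exp (α * z))) :=
        (q N).differentiable.comp (by fun_prop : Differentiable ℂ fun z : ℂ => exp (α * z))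
      have h2 : Tendsto φ (𝓝[≠] 0) (𝓝[≠] (φ 0)) := by
        rw [tendsto_nhdsWithin_iff]
        constructor
        · exact (hφ.continuousOn.continuousAt (isOpen_ball.mem_nhds h0)).tendsto.mono_left
            nhdsWithin_le_nhds
        · rw [eventually_nhdsWithin_iff]
          filter_upwards [isOpen_ball.mem_nhds h0] with v hv hv0
          intro he
          exact hv0 (hinj hv h0 he)
      have h3 : ∃ᶠ z in 𝓝[≠] (φ 0), (q N).eval (exp (α * z)) = 0 := by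
        refine h2.frequently ?_
        apply Filter.Eventually.frequently
        rw [eventually_nhdsWithin_iff]
        filter_upwards [isOpen_ball.mem_nhds (mem_ball_self one_pos)] with v hv _
        exact hcon _ ⟨v, hv, rfl⟩
      intro z
      exact (hd.differentiableOn.analyticOnNhd
        isOpen_univ).eqOn_zero_of_preconnected_of_frequently_eq_zero isPreconnected_univ
        (mem_univ (φ 0)) h3 (mem_univ z)
    apply hqN
    refine Polynomial.eq_zero_of_infinite_isRoot _ ?_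
    have h2 : {x : ℂ | x ≠ 0} ⊆ {x | (q N).IsRoot x} := by
      intro x hx
      have h3 := h1 (log x / α)
      rw [mul_div_cancel₀ _ hα, exp_log hx] at h3
      exact h3
    refine Set.Infinite.mono h2 ?_
    have h4 : {x : ℂ | x ≠ 0} ∈ 𝓝 (1 : ℂ) := isOpen_ne.mem_nhds one_ne_zero
    exact infinite_of_mem_nhds (1 : ℂ) h4
  · intro z hz
    have h1 := hrel z hz
    rw [Finset.sum_comm] at h1
    have h2 : ∑ k ∈ Finset.range (d + 1), (q k).eval (exp (α * z)) * conj (exp (α * z)) ^ k *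
        conj (1 : ℂ) ^ (N - k) = 0 := by
      rw [← h1]
      refine Finset.sum_congr rfl fun k _ => ?_
      rw [hqe, Finset.sum_mul, map_one, one_pow, mul_one]
    rw [← h2]
    refine Finset.sum_subset (Finset.range_mono (by omega)) fun k hkd hk => ?_
    rw [Finset.mem_range, not_lt] at hk
    have hkd' := Finset.mem_range.1 hkd
    rw [hqe]
    rw [Finset.sum_eq_zero, zero_mul, zero_mul]
    intro j hj
    rw [hNmax k (by omega) (by omega) j (Nat.lt_succ_iff.1 (Finset.mem_range.1 hj)), zero_mul]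

end Pool.Agent.P8H66.CS
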